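import Mathlib

/-! The Lieb-Thirring inequality for the square root of the Laplacian on the line. -/

open MeasureTheory
open scoped ENNReal FourierTransform

noncomputable section

namespace Pool.Agent.P.MP_9f4f5e_mp.LT1

/-- square integrable functions on the line -/
abbrev L2 : Type := Lp ℂ 2 (volume : Measure ℝ)

/-- a square integrable function as a function -/
def fn (u : L2) : ℝ → ℂ := u

/-- the L2 Fourier transform -/
def ft (u : L2) : L2 := 𝓕 u

/-- potential energy in the positive part of V -/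
def pot (V : ℝ → ℝ) (u : L2) : ℝ≥0∞ := ∫⁻ x, ENNReal.ofReal (V x) * ‖fn u x‖ₑ ^ 2

/-- relativistic kinetic energy -/
def kin (u : L2) : ℝ≥0∞ := ∫⁻ ξ, ENNReal.ofReal (2 * Real.pi * |ξ|) * ‖fn (ft u) ξ‖ₑ ^ 2

/-- the Lieb-Thirring inequality with exponent γ and constant C -/
def LiebThirring (γ C : ℝ) : Prop :=
  ∀ (N : ℕ) (u : Fin N → L2), Orthonormal ℂ u → ∀ V : ℝ → ℝ, Measurable V →
    ∑ j, (pot V (u j) - kin (u j)) ^ γ ≤ ENNReal.ofReal C * ∫⁻ x, ENNReal.ofReal (V x) ^ (γ + 1)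

end Pool.Agent.P.MP_9f4f5e_mp.LT1
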