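import Pool.Agent.P.MP_9f4f5e_mp.LT.Base
import Pool.Agent.P.MP_9f4f5e_mp.LT1.Stmt

set_option linter.unusedSectionVars false

open MeasureTheory Matrix
open scoped ENNReal ComplexOrder ComplexConjugate FourierTransform
open Pool.Agent.P.MP_9f4f5e_mp.LT (tp dg qf ec fej)

noncomputable section

namespace Pool.Agent.P.MP_9f4f5e_mp.LT1

/-- integral over a momentum cell -/
def uu (h : ℝ) (f : ℝ → ℂ) (p : ℝ) : ℂ := ∫ s in Set.Ico 0 h, f (p + s)

/-- Fourier transform of the indicator of the cell -/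
def ww (h z : ℝ) : ℂ := ∫ s in Set.Ico 0 h, ec (-(s * z))

/-- kinetic energy without the factor two pi -/
def tk (u : L2) : ℝ := ∫ ξ, |ξ| * ‖fn (ft u) ξ‖ ^ 2

end Pool.Agent.P.MP_9f4f5e_mp.LT1
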