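import Pool.Agent.P.MP_9f4f5e_mp.LT.G1
import Pool.Agent.P.MP_9f4f5e_mp.LT1.Defs

set_option linter.unusedSectionVars false

open MeasureTheory Matrix
open scoped ENNReal ComplexOrder ComplexConjugate FourierTransform
open Pool.Agent.P.MP_9f4f5e_mp.LT (tp dg qf ec fej)

noncomputable section

namespace Pool.Agent.P.MP_9f4f5e_mp.LT1

variable {ι κ : Type} [Fintype ι] [DecidableEq ι] [Fintype κ]

theorem s1_pow {v l : ℝ} (hv : 0 ≤ v) (hl : 0 ≤ l) : 3 * l ^ 2 * v - 2 * l ^ 3 ≤ v ^ 3 := by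
  have h : v ^ 3 - (3 * l ^ 2 * v - 2 * l ^ 3) = (v - l) ^ 2 * (v + 2 * l) := by ring
  have h1 : 0 ≤ (v - l) ^ 2 * (v + 2 * l) := by positivity
  linarith

theorem s1_sq {c : ℝ} (hc : 0 ≤ c) (l : ℝ) : 2 * c * l - c ^ 2 ≤ max l 0 ^ 2 := by
  have h1 := mul_le_mul_of_nonneg_left (le_max_left l 0) hc
  nlinarith [sq_nonneg (max l 0 - c)]

theorem peierls {N : Matrix ι ι ℂ} (hN : N.IsHermitian) (v : κ → ι → ℂ) {h : ℝ}
    (hv : ∀ c : ι → ℂ, ∑ k, ‖∑ i, conj (c i) * v k i‖ ^ 2 ≤ h * ∑ i, ‖c i‖ ^ 2)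
    (c : κ → ℝ) (hc : ∀ k, 0 ≤ c k) :
    ∑ k, (2 * c k * qf N (v k) - c k ^ 2 * ∑ i, ‖v k i‖ ^ 2) ≤ h * tp 2 N := by
  obtain ⟨U, l, hs⟩ := LT.exists_spec hN
  have hw : ∀ j, ∑ k, ‖(Uᴴ *ᵥ v k) j‖ ^ 2 ≤ h := by
    intro j
    have h1 := hv fun i => U i j
    rw [hs.col_sum, mul_one] at h1
    refine le_of_eq_of_le (Finset.sum_congr rfl fun k _ => ?_) h1
    simp only [Matrix.mulVec, dotProduct, Matrix.conjTranspose_apply, Complex.star_def]
  have hq : ∀ k, qf N (v k) = ∑ j, l j * ‖(Uᴴ *ᵥ v k) j‖ ^ 2 := fun k => by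
    rw [← LT.Spec.qf_conj, ← hs.eq]
  calc _ ≤ ∑ k, ∑ j, max (l j) 0 ^ 2 * ‖(Uᴴ *ᵥ v k) j‖ ^ 2 := by
        refine Finset.sum_le_sum fun k _ => ?_
        rw [hq, ← hs.parseval, Finset.mul_sum, Finset.mul_sum, ← Finset.sum_sub_distrib]
        refine Finset.sum_le_sum fun j _ => ?_
        have h1 := mul_le_mul_of_nonneg_right (s1_sq (hc k) (l j)) (sq_nonneg ‖(Uᴴ *ᵥ v k) j‖)
        linarith
    _ = ∑ j, max (l j) 0 ^ 2 * ∑ k, ‖(Uᴴ *ᵥ v k) j‖ ^ 2 := by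
        rw [Finset.sum_comm]
        simp only [Finset.mul_sum]
    _ ≤ ∑ j, max (l j) 0 ^ 2 * h :=
        Finset.sum_le_sum fun j _ => mul_le_mul_of_nonneg_left (hw j) (sq_nonneg _)
    _ = _ := by rw [hs.tp_eq, ← Finset.sum_mul, mul_comm]

theorem berezin_three {X : Type} [MeasurableSpace X] (μ : Measure X) [IsFiniteMeasure μ]
    {e : X → ι → ℂ} (he : ∀ i, Measurable fun x => e x i) (he1 : ∀ x i, ‖e x i‖ ≤ 1)
    (hfr : ∀ c : ι → ℂ, ∫ x, ‖∑ i, conj (c i) * e x i‖ ^ 2 ∂μ ≤ ∑ i, ‖c i‖ ^ 2)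
    {V : X → ℝ} (hV : Measurable V) {M : ℝ} (h0 : ∀ x, 0 ≤ V x) (hM : ∀ x, V x ≤ M) :
    (Matrix.of fun i j => ∫ x, (V x : ℂ) * (e x i * conj (e x j)) ∂μ).IsHermitian ∧
      tp 3 (Matrix.of fun i j => ∫ x, (V x : ℂ) * (e x i * conj (e x j)) ∂μ)
        ≤ Fintype.card ι * ∫ x, V x ^ 3 ∂μ := by
  have hH : (Matrix.of fun i j => ∫ x, (V x : ℂ) * (e x i * conj (e x j)) ∂μ).IsHermitian := by
    ext i j
    rw [Matrix.conjTranspose_apply, Matrix.of_apply, Matrix.of_apply, Complex.star_def,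
      ← integral_conj]
    congr 1
    funext x
    simp only [map_mul, Complex.conj_conj, Complex.conj_ofReal]
    ring
  refine ⟨hH, ?_⟩
  obtain ⟨U, l, hs⟩ := LT.exists_spec hH
  set w : ι → X → ℝ := fun k x => ‖∑ i, conj (U i k) * e x i‖ ^ 2 with hw
  have w0 : ∀ k x, 0 ≤ w k x := fun k x => sq_nonneg _
  have wm : ∀ k, Measurable (w k) := fun k =>
    (Finset.measurable_sum _ fun i _ => (he i).const_mul _).norm.pow_const 2
  have wsum : ∀ x, ∑ k, w k x ≤ Fintype.card ι := by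
    intro x
    have h1 := hs.parseval (e x)
    have h2 : ∑ k, w k x = ∑ i, ‖(Uᴴ *ᵥ e x) i‖ ^ 2 := by
      refine Finset.sum_congr rfl fun k _ => ?_
      simp only [hw, Matrix.mulVec, dotProduct, Matrix.conjTranspose_apply, Complex.star_def]
    rw [h2, h1]
    calc ∑ i, ‖e x i‖ ^ 2 ≤ ∑ _i : ι, (1 : ℝ) :=
          Finset.sum_le_sum fun i _ => pow_le_one₀ (norm_nonneg _) (he1 x i)
      _ = Fintype.card ι := by simp
  have wle : ∀ k x, w k x ≤ Fintype.card ι := fun k x =>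
    (Finset.single_le_sum (f := fun k => w k x) (fun k _ => w0 k x) (Finset.mem_univ k)).trans
      (wsum x)
  have hl : ∀ k, l k = ∫ x, V x * w k x ∂μ := by
    intro k
    have h1 := LT.g1_qf μ he he1 hV h0 hM (fun i => U i k)
    have h2 : (fun i => U i k) = U *ᵥ Pi.single k 1 := by
      funext i
      simp
    rw [← h1, h2, hs.eq, LT.Spec.qf_conj, Matrix.mulVec_mulVec, hs.ct_mul, Matrix.one_mulVec,
      Finset.sum_eq_single k]
    · simp
    · intro j _ hj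
      simp [hj]
    · simp
  have hw1 : ∀ k, ∫ x, w k x ∂μ ≤ 1 := fun k => (hfr fun i => U i k).trans (hs.col_sum k).le
  have iw : ∀ k, Integrable (w k) μ := fun k => LT.g1_int μ (wm k) _ (w0 k) (wle k)
  have iVw : ∀ k, Integrable (fun x => V x * w k x) μ := fun k =>
    LT.g1_int μ (hV.mul (wm k)) (M * Fintype.card ι) (fun x => mul_nonneg (h0 x) (w0 k x))
      fun x => mul_le_mul (hM x) (wle k x) (w0 k x) ((h0 x).trans (hM x))
  have iV4 : Integrable (fun x => V x ^ 3) μ :=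
    LT.g1_int μ (hV.pow_const 3) (M ^ 3) (fun x => pow_nonneg (h0 x) 3)
      fun x => pow_le_pow_left₀ (h0 x) (hM x) 3
  have iV4w : ∀ k, Integrable (fun x => V x ^ 3 * w k x) μ := fun k =>
    LT.g1_int μ ((hV.pow_const 3).mul (wm k)) (M ^ 3 * Fintype.card ι)
      (fun x => mul_nonneg (pow_nonneg (h0 x) 3) (w0 k x))
      fun x => mul_le_mul (pow_le_pow_left₀ (h0 x) (hM x) 3) (wle k x) (w0 k x)
        (pow_nonneg ((h0 x).trans (hM x)) 3)
  have hl0 : ∀ k, 0 ≤ l k := fun k => by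
    rw [hl k]
    exact integral_nonneg fun x => mul_nonneg (h0 x) (w0 k x)
  have hk : ∀ k, max (l k) 0 ^ 3 ≤ ∫ x, V x ^ 3 * w k x ∂μ := by
    intro k
    rw [max_eq_left (hl0 k)]
    have h1 : ∫ x, (3 * l k ^ 2 * (V x * w k x) - 2 * l k ^ 3 * w k x) ∂μ
        ≤ ∫ x, V x ^ 3 * w k x ∂μ := by
      refine integral_mono (((iVw k).const_mul _).sub ((iw k).const_mul _)) (iV4w k) fun x => ?_
      have h2 := mul_le_mul_of_nonneg_right (s1_pow (h0 x) (hl0 k)) (w0 k x)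
      simp only
      linarith
    rw [integral_sub ((iVw k).const_mul _) ((iw k).const_mul _), integral_const_mul,
      integral_const_mul, ← hl k] at h1
    have h3 := mul_le_mul_of_nonneg_left (hw1 k) (pow_nonneg (hl0 k) 3)
    nlinarith
  rw [hs.tp_eq]
  calc ∑ k, max (l k) 0 ^ 3 ≤ ∑ k, ∫ x, V x ^ 3 * w k x ∂μ := Finset.sum_le_sum fun k _ => hk k
    _ = ∫ x, ∑ k, V x ^ 3 * w k x ∂μ := (integral_finset_sum _ fun k _ => iV4w k).symm
    _ ≤ ∫ x, Fintype.card ι * V x ^ 3 ∂μ := by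
        refine integral_mono (integrable_finset_sum _ fun k _ => iV4w k) (iV4.const_mul _)
          fun x => ?_
        simp only
        rw [← Finset.mul_sum, mul_comm]
        exact mul_le_mul_of_nonneg_right (wsum x) (pow_nonneg (h0 x) 3)
    _ = _ := integral_const_mul _ _

end Pool.Agent.P.MP_9f4f5e_mp.LT1
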