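import Pool.Agent.P.MP_9f4f5e_mp.LT1.Defs

set_option linter.unusedSectionVars false

open MeasureTheory Matrix
open scoped ENNReal ComplexOrder ComplexConjugate FourierTransform
open Pool.Agent.P.MP_9f4f5e_mp.LT (tp dg qf ec fej)

noncomputable section

namespace Pool.Agent.P.MP_9f4f5e_mp.LT1

theorem s10_int {a : ℝ} (ha : 0 < a) (x : ℝ) (j : ℕ) :
    IntervalIntegrable (fun s : ℝ => s ^ (a - 1 + j)) volume 0 x :=
  intervalIntegral.intervalIntegrable_rpow' (by have : (0 : ℝ) ≤ j := j.cast_nonneg; linarith)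

theorem s10_val {a : ℝ} (ha : 0 < a) {x : ℝ} (hx : 0 < x) (j : ℕ) :
    ∫ s in (0 : ℝ)..x, s ^ (a - 1 + j) = x ^ a * x ^ j / (a + j) := by
  have hj : (0 : ℝ) ≤ j := j.cast_nonneg
  rw [integral_rpow (Or.inl (by linarith)), show a - 1 + j + 1 = a + j by ring,
    Real.zero_rpow (by positivity), sub_zero, Real.rpow_add hx, Real.rpow_natCast]

theorem s10_gen {a c : ℝ} (ha : 0 < a) (hc : 0 < c) {n : ℕ} (hn : n ≠ 0) (g : ℝ → ℝ → ℝ)
    (hg : ∀ x s : ℝ, 0 < s → s ^ (a - 1) * (x - s) ^ n = g x s)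
    (hi : ∀ x : ℝ, IntervalIntegrable (g x) volume 0 x)
    (hv : ∀ x : ℝ, 0 < x → ∫ s in (0 : ℝ)..x, g x s = c * (x ^ a * x ^ n)) (E : ℝ≥0∞) :
    ∫⁻ s in Set.Ioi (0 : ℝ), ENNReal.ofReal (s ^ (a - 1)) * (E - ENNReal.ofReal s) ^ n
      = ENNReal.ofReal c * E ^ (a + n) := by
  have hn' : (0 : ℝ) ≤ n := n.cast_nonneg
  have han : 0 < a + n := by linarith
  by_cases hE : E = ∞
  · subst hE
    rw [ENNReal.top_rpow_of_pos han, ENNReal.mul_top (by simpa using hc),
      setLIntegral_congr_fun measurableSet_Ioi (g := fun _ => ∞)]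
    · simp
    · intro s hs
      have hs' : 0 < s ^ (a - 1) := Real.rpow_pos_of_pos hs _
      simp only
      rw [ENNReal.top_sub ENNReal.ofReal_ne_top, ENNReal.top_pow hn,
        ENNReal.mul_top (by simpa using hs')]
  obtain ⟨x, hx0, rfl⟩ : ∃ x : ℝ, 0 ≤ x ∧ E = ENNReal.ofReal x :=
    ⟨E.toReal, ENNReal.toReal_nonneg, (ENNReal.ofReal_toReal hE).symm⟩
  rcases hx0.eq_or_lt with rfl | hx
  · simp [hn, ENNReal.zero_rpow_of_pos han]
  have h1 : ∫⁻ s in Set.Ioi (0 : ℝ), ENNReal.ofReal (s ^ (a - 1)) *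
      (ENNReal.ofReal x - ENNReal.ofReal s) ^ n =
      ∫⁻ s in Set.Ioc (0 : ℝ) x, ENNReal.ofReal (g x s) := by
    rw [← lintegral_indicator measurableSet_Ioi, ← lintegral_indicator measurableSet_Ioc]
    congr 1
    funext s
    by_cases hs : 0 < s
    · rw [Set.indicator_of_mem (show s ∈ Set.Ioi (0 : ℝ) from hs)]
      by_cases hsx : s ≤ x
      · rw [Set.indicator_of_mem (show s ∈ Set.Ioc (0 : ℝ) x from ⟨hs, hsx⟩), ← hg x s hs,
          ← ENNReal.ofReal_sub _ hs.le, ← ENNReal.ofReal_pow (by linarith),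
          ENNReal.ofReal_mul (Real.rpow_nonneg hs.le _)]
      · rw [Set.indicator_of_notMem (fun h => hsx h.2),
          tsub_eq_zero_of_le (ENNReal.ofReal_le_ofReal (not_le.1 hsx).le), zero_pow hn, mul_zero]
    · rw [Set.indicator_of_notMem (show s ∉ Set.Ioi (0 : ℝ) from hs),
        Set.indicator_of_notMem (fun h => hs h.1)]
  have h2 : IntegrableOn (g x) (Set.Ioc 0 x) := (hi x).1
  have h3 : 0 ≤ᵐ[volume.restrict (Set.Ioc (0 : ℝ) x)] g x := by
    refine (ae_restrict_iff' measurableSet_Ioc).2 (Filter.Eventually.of_forall fun s hs => ?_)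
    rw [← hg x s hs.1]
    exact mul_nonneg (Real.rpow_nonneg hs.1.le _) (pow_nonneg (by linarith [hs.2]) _)
  rw [h1, ← ofReal_integral_eq_lintegral_ofReal h2 h3, ← intervalIntegral.integral_of_le hx.le,
    hv x hx, ENNReal.ofReal_mul hc.le, ENNReal.ofReal_rpow_of_pos hx, Real.rpow_add hx,
    Real.rpow_natCast]

theorem s10_pw {a s : ℝ} (hs : 0 < s) (j : ℕ) : s ^ (a - 1 + j) = s ^ (a - 1) * s ^ j := by
  rw [Real.rpow_add hs, Real.rpow_natCast]

theorem al_two {a : ℝ} (ha : 0 < a) (E : ℝ≥0∞) :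
    ∫⁻ s in Set.Ioi (0 : ℝ), ENNReal.ofReal (s ^ (a - 1)) * (E - ENNReal.ofReal s) ^ 2
      = ENNReal.ofReal (2 / (a * (a + 1) * (a + 2))) * E ^ (a + 2) := by
  have h := s10_gen ha (c := 2 / (a * (a + 1) * (a + 2))) (by positivity) (n := 2) (by norm_num)
    (fun x s => x ^ 2 * s ^ (a - 1 + (0 : ℕ)) + -(2 * x) * s ^ (a - 1 + (1 : ℕ)) +
      s ^ (a - 1 + (2 : ℕ)))
    (fun x s hs => by simp only [s10_pw hs]; ring)
    (fun x => (((s10_int ha x 0).const_mul _).add ((s10_int ha x 1).const_mul _)).add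
      (s10_int ha x 2))
    (fun x hx => by
      rw [intervalIntegral.integral_add (((s10_int ha x 0).const_mul _).add
          ((s10_int ha x 1).const_mul _)) (s10_int ha x 2),
        intervalIntegral.integral_add ((s10_int ha x 0).const_mul _)
          ((s10_int ha x 1).const_mul _), intervalIntegral.integral_const_mul,
        intervalIntegral.integral_const_mul, s10_val ha hx, s10_val ha hx, s10_val ha hx]
      push_cast
      field_simp
      ring) E
  simpa only [Nat.cast_ofNat] using h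

theorem al_three {a : ℝ} (ha : 0 < a) (E : ℝ≥0∞) :
    ∫⁻ s in Set.Ioi (0 : ℝ), ENNReal.ofReal (s ^ (a - 1)) * (E - ENNReal.ofReal s) ^ 3
      = ENNReal.ofReal (6 / (a * (a + 1) * (a + 2) * (a + 3))) * E ^ (a + 3) := by
  have h := s10_gen ha (c := 6 / (a * (a + 1) * (a + 2) * (a + 3))) (by positivity) (n := 3)
    (by norm_num)
    (fun x s => x ^ 3 * s ^ (a - 1 + (0 : ℕ)) + -(3 * x ^ 2) * s ^ (a - 1 + (1 : ℕ)) +
      3 * x * s ^ (a - 1 + (2 : ℕ)) + -1 * s ^ (a - 1 + (3 : ℕ)))
    (fun x s hs => by simp only [s10_pw hs]; ring)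
    (fun x => ((((s10_int ha x 0).const_mul _).add ((s10_int ha x 1).const_mul _)).add
      ((s10_int ha x 2).const_mul _)).add ((s10_int ha x 3).const_mul _))
    (fun x hx => by
      rw [intervalIntegral.integral_add ((((s10_int ha x 0).const_mul _).add
          ((s10_int ha x 1).const_mul _)).add ((s10_int ha x 2).const_mul _))
          ((s10_int ha x 3).const_mul _),
        intervalIntegral.integral_add (((s10_int ha x 0).const_mul _).add
          ((s10_int ha x 1).const_mul _)) ((s10_int ha x 2).const_mul _),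
        intervalIntegral.integral_add ((s10_int ha x 0).const_mul _)
          ((s10_int ha x 1).const_mul _), intervalIntegral.integral_const_mul,
        intervalIntegral.integral_const_mul, intervalIntegral.integral_const_mul,
        intervalIntegral.integral_const_mul, s10_val ha hx, s10_val ha hx, s10_val ha hx,
        s10_val ha hx]
      push_cast
      field_simp
      ring) E
  simpa only [Nat.cast_ofNat] using h

end Pool.Agent.P.MP_9f4f5e_mp.LT1
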