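import Pool.Agent.P.MP_9f4f5e_mp.LT1.S9
import Pool.Agent.P.MP_9f4f5e_mp.LT1.S10

set_option linter.unusedSectionVars false

open MeasureTheory Matrix
open scoped ENNReal ComplexOrder ComplexConjugate FourierTransform
open Pool.Agent.P.MP_9f4f5e_mp.LT (tp dg qf ec fej)

noncomputable section

namespace Pool.Agent.P.MP_9f4f5e_mp.LT1

theorem s11_mass {u : L2} (hu : ‖u‖ = 1) : ∫⁻ x, ‖fn u x‖ₑ ^ 2 = 1 := by
  obtain ⟨h1, h2⟩ := fn_sq u
  have h3 := ofReal_integral_eq_lintegral_ofReal h1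
    (Filter.Eventually.of_forall fun x => by positivity)
  rw [h2, hu] at h3
  have h4 : ∀ x, ‖fn u x‖ₑ ^ 2 = ENNReal.ofReal (‖fn u x‖ ^ 2) := fun x => by
    rw [ENNReal.ofReal_pow (norm_nonneg _), ofReal_norm]
  simp only [h4]
  rw [← h3]
  simp

theorem s11_meas (u : L2) : Measurable fun x => ‖fn u x‖ₑ ^ 2 :=
  ((Lp.stronglyMeasurable u).measurable.enorm).pow_const 2

theorem s11_pot {u : L2} (hu : ‖u‖ = 1) {V : ℝ → ℝ} {s : ℝ} (hs : 0 ≤ s) :
    pot V u ≤ pot (fun x => V x - s) u + ENNReal.ofReal s := by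
  unfold pot
  have h1 : ∀ x, ENNReal.ofReal (V x) * ‖fn u x‖ₑ ^ 2 ≤
      ENNReal.ofReal (V x - s) * ‖fn u x‖ₑ ^ 2 + ENNReal.ofReal s * ‖fn u x‖ₑ ^ 2 := fun x => by
    rw [← add_mul, ENNReal.ofReal_sub _ hs]
    exact mul_le_mul_left le_tsub_add _
  refine (lintegral_mono h1).trans ?_
  rw [lintegral_add_right _ ((s11_meas u).const_mul _), lintegral_const_mul _ (s11_meas u),
    s11_mass hu, mul_one]

theorem s11_shift {u : L2} (hu : ‖u‖ = 1) {V : ℝ → ℝ} {s : ℝ} (hs : 0 ≤ s) :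
    (pot V u - kin u) - ENNReal.ofReal s ≤ pot (fun x => V x - s) u - kin u := by
  rw [tsub_right_comm]
  exact tsub_le_tsub_right (tsub_le_iff_right.2 (s11_pot hu hs)) _

theorem s11_step {N : ℕ} {u : Fin N → L2} (hu : Orthonormal ℂ u) {V : ℝ → ℝ} (hV : Measurable V)
    {s : ℝ} (hs : 0 ≤ s) :
    ∑ k, ((pot V (u k) - kin (u k)) - ENNReal.ofReal s) ^ 2
      ≤ ENNReal.ofReal (1 / (3 * Real.pi)) *
        ∫⁻ x, (ENNReal.ofReal (V x) - ENNReal.ofReal s) ^ 3 := by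
  have h1 := lt_gamma_two hu (V := fun x => V x - s) (hV.sub_const s)
  simp only [ENNReal.ofReal_sub _ hs] at h1
  refine le_trans (Finset.sum_le_sum fun k _ => ?_) h1
  exact pow_le_pow_left' (s11_shift (hu.1 k) hs) 2

theorem s11_main {a : ℝ} (ha : 0 < a) {N : ℕ} {u : Fin N → L2} (hu : Orthonormal ℂ u)
    {V : ℝ → ℝ} (hV : Measurable V) :
    ENNReal.ofReal (2 / (a * (a + 1) * (a + 2))) * ∑ k, (pot V (u k) - kin (u k)) ^ (a + 2)
      ≤ ENNReal.ofReal (1 / (3 * Real.pi)) *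
        (ENNReal.ofReal (6 / (a * (a + 1) * (a + 2) * (a + 3))) *
          ∫⁻ x, ENNReal.ofReal (V x) ^ (a + 3)) := by
  have hw : Measurable fun s : ℝ => ENNReal.ofReal (s ^ (a - 1)) :=
    (measurable_id.pow_const (a - 1)).ennreal_ofReal
  have hL : ENNReal.ofReal (2 / (a * (a + 1) * (a + 2))) *
      ∑ k, (pot V (u k) - kin (u k)) ^ (a + 2) =
      ∫⁻ s in Set.Ioi (0 : ℝ), ENNReal.ofReal (s ^ (a - 1)) *
        ∑ k, ((pot V (u k) - kin (u k)) - ENNReal.ofReal s) ^ 2 := by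
    simp only [Finset.mul_sum]
    rw [lintegral_finsetSum]
    · exact Finset.sum_congr rfl fun k _ => (al_two ha _).symm
    · intro k _
      exact hw.mul ((measurable_const.sub measurable_id.ennreal_ofReal).pow_const 2)
  have hm : Measurable fun p : ℝ × ℝ => ENNReal.ofReal (p.1 ^ (a - 1)) *
      (ENNReal.ofReal (V p.2) - ENNReal.ofReal p.1) ^ 3 :=
    (hw.comp measurable_fst).mul
      (((hV.comp measurable_snd).ennreal_ofReal.sub measurable_fst.ennreal_ofReal).pow_const 3)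
  have hR : ENNReal.ofReal (6 / (a * (a + 1) * (a + 2) * (a + 3))) *
      ∫⁻ x, ENNReal.ofReal (V x) ^ (a + 3) =
      ∫⁻ s in Set.Ioi (0 : ℝ), ENNReal.ofReal (s ^ (a - 1)) *
        ∫⁻ x, (ENNReal.ofReal (V x) - ENNReal.ofReal s) ^ 3 := by
    rw [← lintegral_const_mul _ (hV.ennreal_ofReal.pow_const (a + 3))]
    have h1 : ∀ s : ℝ, ENNReal.ofReal (s ^ (a - 1)) *
        ∫⁻ x, (ENNReal.ofReal (V x) - ENNReal.ofReal s) ^ 3 =
        ∫⁻ x, ENNReal.ofReal (s ^ (a - 1)) * (ENNReal.ofReal (V x) - ENNReal.ofReal s) ^ 3 :=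
      fun s => (lintegral_const_mul _
        ((hV.ennreal_ofReal.sub measurable_const).pow_const 3)).symm
    simp only [h1]
    rw [lintegral_lintegral_swap (μ := volume.restrict (Set.Ioi (0 : ℝ))) (ν := volume)
      (f := fun s x => ENNReal.ofReal (s ^ (a - 1)) *
        (ENNReal.ofReal (V x) - ENNReal.ofReal s) ^ 3) hm.aemeasurable]
    exact lintegral_congr fun x => (al_three ha _).symm
  rw [hL, hR, ← lintegral_const_mul' _ _ ENNReal.ofReal_ne_top]
  refine setLIntegral_mono' measurableSet_Ioi fun s hs => ?_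
  rw [mul_left_comm]
  exact mul_le_mul_right (s11_step hu hV (le_of_lt hs)) _

theorem lt_upper {γ : ℝ} (hγ : 2 ≤ γ) : LiebThirring γ (1 / (Real.pi * (γ + 1))) := by
  intro N u hu V hV
  rcases eq_or_lt_of_le hγ with rfl | hlt
  · have h1 := lt_gamma_two hu hV
    have h2 : (2 : ℝ) + 1 = ((3 : ℕ) : ℝ) := by norm_num
    have h3 : (1 : ℝ) / (Real.pi * ((3 : ℕ) : ℝ)) = 1 / (3 * Real.pi) := by
      rw [mul_comm]
      norm_num
    simp only [h2, h3, ENNReal.rpow_natCast, ENNReal.rpow_two]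
    exact h1
  · have ha : 0 < γ - 2 := sub_pos.2 hlt
    have h1 := s11_main ha hu hV
    have e1 : γ - 2 + 2 = γ := by ring
    have e2 : γ - 2 + 3 = γ + 1 := by ring
    rw [e1, e2] at h1
    have hp : 0 < 2 / ((γ - 2) * (γ - 2 + 1) * γ) := by
      have : 0 < γ := by linarith
      positivity
    have e3 : ENNReal.ofReal (1 / (3 * Real.pi)) *
        ENNReal.ofReal (6 / ((γ - 2) * (γ - 2 + 1) * γ * (γ + 1))) =
        ENNReal.ofReal (2 / ((γ - 2) * (γ - 2 + 1) * γ)) *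
          ENNReal.ofReal (1 / (Real.pi * (γ + 1))) := by
      rw [← ENNReal.ofReal_mul (by positivity), ← ENNReal.ofReal_mul hp.le]
      congr 1
      have h4 : γ ≠ 0 := by linarith
      have h5 : γ + 1 ≠ 0 := by linarith
      have h6 : γ - 2 ≠ 0 := ha.ne'
      have h7 : γ - 2 + 1 ≠ 0 := by linarith
      have h8 := Real.pi_ne_zero
      field_simp
      ring
    rw [← mul_assoc (ENNReal.ofReal (1 / (3 * Real.pi))), e3,
      mul_assoc (ENNReal.ofReal (2 / ((γ - 2) * (γ - 2 + 1) * γ)))] at h1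
    exact (ENNReal.mul_le_mul_iff_right (ENNReal.ofReal_pos.2 hp).ne' ENNReal.ofReal_ne_top).1 h1

end Pool.Agent.P.MP_9f4f5e_mp.LT1
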