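import Pool.Agent.P.MP_9f4f5e_mp.LT.E2
import Pool.Agent.P.MP_9f4f5e_mp.LT.G2
import Pool.Agent.P.MP_9f4f5e_mp.LT1.Defs

set_option linter.unusedSectionVars false

open MeasureTheory Matrix
open scoped ENNReal ComplexOrder ComplexConjugate FourierTransform
open Pool.Agent.P.MP_9f4f5e_mp.LT (tp dg qf ec fej)

noncomputable section

namespace Pool.Agent.P.MP_9f4f5e_mp.LT1

theorem s12_fwd (k : ℝ) (f : ℝ → ℂ) (x : ℝ) :
    𝓕 (fun v => f (v + k)) x = ec (-inner ℝ (-k) x) * 𝓕 f x := by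
  rw [Real.fourier_eq, Real.fourier_eq, ← integral_const_mul,
    ← integral_add_right_eq_self
      (fun v => ec (-inner ℝ (-k) x) * (Real.fourierChar (-inner ℝ v x) • f v)) k]
  refine integral_congr_ae (Filter.Eventually.of_forall fun v => ?_)
  show ec (-inner ℝ v x) * f (v + k) =
    ec (-inner ℝ (-k) x) * (ec (-inner ℝ (v + k) x) * f (v + k))
  rw [← mul_assoc, ← LT.ec_add, inner_add_left, inner_neg_left]
  congr 2
  ring

theorem s12_comm (k : ℝ) (χ : L2) : (𝓕 (LT.e2T k χ) : L2) = LT.e2M (-k) (𝓕 χ) := by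
  refine DenseRange.induction_on
    (p := fun χ : L2 => (𝓕 (LT.e2T k χ) : L2) = LT.e2M (-k) (𝓕 χ))
    (SchwartzMap.denseRange_toLpCLM (p := 2) ENNReal.ofNat_ne_top) χ ?_ fun f => ?_
  · exact isClosed_eq ((Lp.fourierTransformₗᵢ ℝ ℂ).continuous.comp (LT.e2T k).continuous)
      ((LT.e2M (-k)).continuous.comp (Lp.fourierTransformₗᵢ ℝ ℂ).continuous)
  · have h1 : LT.e2T k (f.toLp 2) = (f.compSubConstCLM ℂ (-k)).toLp 2 := by
      refine Lp.ext ?_
      filter_upwards [LT.e2T_coe k (f.toLp 2), (f.compSubConstCLM ℂ (-k)).coeFn_toLp 2 volume,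
        (measurePreserving_add_right volume k).quasiMeasurePreserving.ae (f.coeFn_toLp 2 volume)]
        with x a1 a2 a3
      rw [a1, a2, a3, SchwartzMap.compSubConstCLM_apply, sub_neg_eq_add]
    show 𝓕 (LT.e2T k (f.toLp 2)) = LT.e2M (-k) (𝓕 (f.toLp 2))
    rw [h1, SchwartzMap.toLp_fourier_eq, SchwartzMap.toLp_fourier_eq]
    refine Lp.ext ?_
    filter_upwards [LT.e2M_coe (-k) ((𝓕 f).toLp 2), (𝓕 f).coeFn_toLp 2 volume,
      (𝓕 (f.compSubConstCLM ℂ (-k))).coeFn_toLp 2 volume] with x a1 a2 a3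
    rw [a1, a2, a3, SchwartzMap.fourier_coe, SchwartzMap.fourier_coe, ← s12_fwd]
    refine congrArg (fun g : ℝ → ℂ => 𝓕 g x) (funext fun v => ?_)
    rw [SchwartzMap.compSubConstCLM_apply, sub_neg_eq_add]

/-- translation of a function modulates its Fourier transform -/
theorem ft_translate (w : L2) (b : ℝ) : ∃ u : L2, (∀ᵐ x, fn u x = fn w (x + b)) ∧
    ∀ᵐ ξ, fn (ft u) ξ = ec (b * ξ) * fn (ft w) ξ := by
  refine ⟨LT.e2T b w, LT.e2T_coe b w, ?_⟩
  unfold fn ft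
  rw [s12_comm]
  filter_upwards [LT.e2M_coe (-b) (𝓕 w)] with ξ a1
  rw [a1]
  congr 2
  simp [mul_comm]

theorem s12_int {h : ℝ} (hh : 0 < h) (k j : ℤ) :
    ∫ s in Set.Ico (k * h) ((k + 1) * h), ec (j / h * s) = if j = 0 then (h : ℂ) else 0 := by
  have h1 : (h : ℂ) ≠ 0 := Complex.ofReal_ne_zero.2 hh.ne'
  rw [integral_Ico_eq_integral_Ioo, ← integral_Ioc_eq_integral_Ioo,
    ← intervalIntegral.integral_of_le (by nlinarith)]
  split_ifs with hj
  · simp only [hj, Int.cast_zero, zero_div, zero_mul, LT.ec_zero,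
      intervalIntegral.integral_const, Complex.real_smul, mul_one]
    congr 1
    ring
  · have e : ∀ s : ℝ, ec (j / h * s) = Complex.exp (2 * Real.pi * Complex.I * j / h * s) := by
      intro s
      rw [LT.ec_eq]
      congr 1
      push_cast
      ring
    simp only [e]
    rw [integral_exp_mul_complex (div_ne_zero (mul_ne_zero Complex.two_pi_I_ne_zero
      (Int.cast_ne_zero.2 hj)) h1), div_eq_zero_iff, sub_eq_zero]
    refine Or.inl (Complex.exp_eq_exp_iff_exists_int.2 ⟨j, ?_⟩)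
    push_cast
    field_simp

theorem s12_disj {h : ℝ} (hh : 0 < h) {k k' : ℤ} {ξ : ℝ} (h1 : ξ ∈ Set.Ico (k * h) ((k + 1) * h))
    (h2 : ξ ∈ Set.Ico (k' * h) ((k' + 1) * h)) : k = k' := by
  have a1 : (k : ℝ) < k' + 1 := lt_of_mul_lt_mul_right (h1.1.trans_lt h2.2) hh.le
  have a2 : (k' : ℝ) < k + 1 := lt_of_mul_lt_mul_right (h2.1.trans_lt h1.2) hh.le
  have b1 : k < k' + 1 := by exact_mod_cast a1
  have b2 : k' < k + 1 := by exact_mod_cast a2
  omega

theorem s12_sq (f : L2) (hf : ‖f‖ = 1) : ∫⁻ ξ, ‖fn f ξ‖ₑ ^ 2 = 1 := by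
  have h1 : eLpNorm f 2 volume = 1 := by
    rw [← Lp.enorm_def, ← ofReal_norm, hf, ENNReal.ofReal_one]
  have h2 := eLpNorm_nnreal_pow_eq_lintegral (f := (f : ℝ → ℂ)) (μ := volume) (p := 2)
    two_ne_zero
  simp only [ENNReal.coe_ofNat, NNReal.coe_ofNat, h1, ENNReal.rpow_two, one_pow] at h2
  exact h2.symm

/-- the Shannon system -/
theorem shannon {h : ℝ} (hh : 0 < h) : ∃ (w : ℤ → L2) (u : ℤ × ℤ → L2), Orthonormal ℂ u ∧
    (∀ k, ‖w k‖ = 1) ∧ (∀ k j, ∀ᵐ x, fn (u (k, j)) x = fn (w k) (x - j / h)) ∧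
    ∀ k j, kin (u (k, j)) ≤ ENNReal.ofReal (2 * Real.pi * h * max (-(k : ℝ)) (k + 1)) := by
  obtain ⟨χ, hχ⟩ : ∃ χ : ℤ → L2, ∀ k, χ k = indicatorConstLp 2
      (measurableSet_Ico : MeasurableSet (Set.Ico (k * h) ((k + 1) * h))) measure_Ico_lt_top.ne
      (((√h)⁻¹ : ℝ) : ℂ) := ⟨_, fun _ => rfl⟩
  have hs : 0 < √h := Real.sqrt_pos.2 hh
  have hc : ∀ k, ∀ᵐ ξ, fn (ft (𝓕⁻ (χ k))) ξ =
      (Set.Ico (k * h) ((k + 1) * h)).indicator (fun _ => (((√h)⁻¹ : ℝ) : ℂ)) ξ := by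
    intro k
    unfold fn ft
    rw [FourierTransform.fourier_fourierInv_eq, hχ]
    exact indicatorConstLp_coeFn
  choose u hu1 hu2 using fun a : ℤ × ℤ => ft_translate (𝓕⁻ (χ a.1)) (-(a.2 / h))
  have hu3 : ∀ a : ℤ × ℤ, ∀ᵐ ξ, fn (ft (u a)) ξ = (Set.Ico (a.1 * h) ((a.1 + 1) * h)).indicator
      (fun ξ => ec (-(a.2 / h) * ξ) * (((√h)⁻¹ : ℝ) : ℂ)) ξ := by
    intro a
    filter_upwards [hu2 a, hc a.1] with ξ a1 a2
    rw [a1, a2, Set.indicator_mul_right]
  have hon : Orthonormal ℂ u := by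
    refine orthonormal_iff_ite.2 fun a b => ?_
    rw [← Lp.inner_fourier_eq, L2.inner_def]
    by_cases hk : a.1 = b.1
    · have e : ∫ ξ, inner ℂ ((𝓕 (u a) : L2) ξ) ((𝓕 (u b) : L2) ξ) =
          ∫ ξ, (Set.Ico (a.1 * h) ((a.1 + 1) * h)).indicator
            (fun ξ => (h : ℂ)⁻¹ * ec ((a.2 - b.2 : ℤ) / h * ξ)) ξ := by
        refine integral_congr_ae ?_
        filter_upwards [hu3 a, hu3 b] with ξ a1 a2
        unfold fn ft at a1 a2
        rw [a1, a2, ← hk]
        by_cases hξ : ξ ∈ Set.Ico (a.1 * h) ((a.1 + 1) * h)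
        · simp only [Set.indicator_of_mem hξ]
          rw [RCLike.inner_apply, map_mul, ← LT.ec_neg, Complex.conj_ofReal, mul_mul_mul_comm,
            ← LT.ec_add, ← Complex.ofReal_mul, ← mul_inv, Real.mul_self_sqrt hh.le, mul_comm,
            Complex.ofReal_inv]
          congr 2
          push_cast
          ring
        · simp only [Set.indicator_of_notMem hξ, inner_zero_left]
      rw [e, integral_indicator measurableSet_Ico, integral_const_mul, s12_int hh]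
      by_cases hj : a.2 = b.2
      · rw [if_pos (sub_eq_zero.2 hj), if_pos (Prod.ext hk hj),
          inv_mul_cancel₀ (Complex.ofReal_ne_zero.2 hh.ne')]
      · rw [if_neg (sub_ne_zero.2 hj), if_neg fun q => hj (congrArg Prod.snd q), mul_zero]
    · rw [if_neg fun q => hk (congrArg Prod.fst q)]
      refine integral_eq_zero_of_ae ?_
      filter_upwards [hu3 a, hu3 b] with ξ a1 a2
      unfold fn ft at a1 a2
      rw [a1, a2]
      by_cases hξ : ξ ∈ Set.Ico (a.1 * h) ((a.1 + 1) * h)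
      · rw [Set.indicator_of_notMem fun q => hk (s12_disj hh hξ q), inner_zero_right]
        rfl
      · rw [Set.indicator_of_notMem hξ, inner_zero_left]
        rfl
  refine ⟨fun k => 𝓕⁻ (χ k), u, hon, fun k => ?_, fun k j => ?_, fun k j => ?_⟩
  · rw [← Lp.norm_fourier_eq, FourierTransform.fourier_fourierInv_eq, hχ,
      norm_indicatorConstLp two_ne_zero ENNReal.ofNat_ne_top, Real.volume_real_Ico_of_le
        (by nlinarith), show (k + 1) * h - k * h = h by ring, Complex.norm_real,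
      Real.norm_of_nonneg (by positivity), ENNReal.toReal_ofNat, ← Real.sqrt_eq_rpow,
      inv_mul_cancel₀ hs.ne']
  · simpa only [sub_eq_add_neg] using hu1 (k, j)
  · have h1 := s12_sq (ft (u (k, j))) ((Lp.norm_fourier_eq _).trans (hon.1 _))
    rw [← mul_one (ENNReal.ofReal _), ← h1, ← lintegral_const_mul' _ _ ENNReal.ofReal_ne_top]
    refine lintegral_mono_ae ?_
    filter_upwards [hu3 (k, j)] with ξ a1
    by_cases hξ : ξ ∈ Set.Ico (k * h) ((k + 1) * h)
    · refine mul_le_mul_left (ENNReal.ofReal_le_ofReal ?_) _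
      rw [mul_assoc (2 * Real.pi)]
      refine mul_le_mul_of_nonneg_left (abs_le.2 ⟨?_, ?_⟩) (by positivity)
      · nlinarith [le_max_left (-(k : ℝ)) (k + 1), hξ.1]
      · nlinarith [le_max_right (-(k : ℝ)) (k + 1), hξ.2]
    · rw [a1, Set.indicator_of_notMem hξ]
      simp

end Pool.Agent.P.MP_9f4f5e_mp.LT1
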