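import Pool.Agent.P.MP_9f4f5e_mp.LT1.S2
import Pool.Agent.P.MP_9f4f5e_mp.LT1.S12

set_option linter.unusedSectionVars false

open MeasureTheory Matrix
open scoped ENNReal ComplexOrder ComplexConjugate FourierTransform
open Pool.Agent.P.MP_9f4f5e_mp.LT (tp dg qf ec fej)

noncomputable section

namespace Pool.Agent.P.MP_9f4f5e_mp.LT1

theorem s13_radius (w : L2) (hw : ‖w‖ = 1) {η : ℝ} (hη : 0 < η) :
    ∀ᶠ n : ℕ in Filter.atTop, 1 - η ≤ ∫ x in Set.Icc (-(n : ℝ)) n, ‖fn w x‖ ^ 2 := by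
  have hU : (⋃ n : ℕ, Set.Icc (-(n : ℝ)) n) = Set.univ := by
    refine Set.eq_univ_of_forall fun x => ?_
    obtain ⟨n, hn⟩ := exists_nat_ge |x|
    exact Set.mem_iUnion.2 ⟨n, abs_le.1 hn⟩
  have h1 := tendsto_setIntegral_of_monotone (μ := volume) (f := fun x => ‖fn w x‖ ^ 2)
    (s := fun n : ℕ => Set.Icc (-(n : ℝ)) n) (fun _ => measurableSet_Icc)
    (fun a b hab => Set.Icc_subset_Icc (neg_le_neg (Nat.cast_le.2 hab)) (Nat.cast_le.2 hab))
    (fn_sq w).1.integrableOn
  rw [hU, Measure.restrict_univ, (fn_sq w).2, hw, one_pow] at h1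
  exact h1.eventually (eventually_ge_nhds (by linarith))

theorem s13_pot (w u : L2) {a r L c : ℝ} (hu : ∀ᵐ x, fn u x = fn w (x - a)) (h0 : 0 ≤ a)
    (h1 : a ≤ L) (hc : c ≤ ∫ x in Set.Icc (-r) r, ‖fn w x‖ ^ 2) :
    ENNReal.ofReal c ≤ pot (Set.indicator (Set.Icc (-r) (L + r)) 1) u := by
  have e1 : pot (Set.indicator (Set.Icc (-r) (L + r)) 1) u =
      ∫⁻ x, ENNReal.ofReal (Set.indicator (Set.Icc (-r) (L + r)) (1 : ℝ → ℝ) (x + a)) *
        ‖fn w x‖ₑ ^ 2 := by
    rw [← lintegral_sub_right_eq_self _ a]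
    refine lintegral_congr_ae ?_
    filter_upwards [hu] with x hx
    rw [hx, sub_add_cancel]
  rw [e1]
  refine (ENNReal.ofReal_le_ofReal hc).trans ?_
  rw [ofReal_integral_eq_lintegral_ofReal (fn_sq w).1.integrableOn
    (Filter.Eventually.of_forall fun x => sq_nonneg _), ← lintegral_indicator measurableSet_Icc]
  refine lintegral_mono fun x => ?_
  by_cases hx : x ∈ Set.Icc (-r) r
  · have hx' : x + a ∈ Set.Icc (-r) (L + r) := ⟨by linarith [hx.1], by linarith [hx.2]⟩
    rw [Set.indicator_of_mem hx, Set.indicator_of_mem hx', ENNReal.ofReal_pow (norm_nonneg _),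
      ofReal_norm]
    simp
  · rw [Set.indicator_of_notMem hx]
    exact zero_le

/-- the frequency cells -/
def s13_idx {K : ℕ} (p : Fin K × Bool) : ℤ := if p.2 then (p.1 : ℕ) else -((p.1 : ℕ) : ℤ) - 1

theorem s13_idx_inj {K : ℕ} : Function.Injective (s13_idx (K := K)) := by
  rintro ⟨a, _ | _⟩ ⟨b, _ | _⟩ h <;> simp only [s13_idx, Bool.false_eq_true, if_false, if_true] at h
  · exact Prod.ext (Fin.ext (by show (a : ℕ) = b; omega)) rfl
  · omega
  · omega
  · exact Prod.ext (Fin.ext (by show (a : ℕ) = b; omega)) rfl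

theorem s13_idx_max {K : ℕ} (p : Fin K × Bool) :
    max (-(s13_idx p : ℝ)) (s13_idx p + 1) = ((p.1 : ℕ) : ℝ) + 1 := by
  have h0 : (0 : ℝ) ≤ (p.1 : ℕ) := Nat.cast_nonneg _
  obtain ⟨a, _ | _⟩ := p
  · simp only [s13_idx, Bool.false_eq_true, if_false]
    push_cast
    rw [max_eq_left (by linarith)]; ring
  · simp only [s13_idx, if_true]
    push_cast
    rw [max_eq_right (by linarith)]

theorem lower_sum {γ C : ℝ} (hγ : 0 < γ) (H : LiebThirring γ C) {h η : ℝ} (hh : 0 < h)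
    (hη : 0 < η) (K : ℕ) :
    2 * h * ∑ k ∈ Finset.range K, max (1 - η - 2 * Real.pi * h * (k + 1)) 0 ^ γ ≤ max C 0 := by
  obtain ⟨w, u, hu, hw, huw, hkin⟩ := shannon hh
  obtain ⟨n, hn⟩ := (Filter.eventually_all.2 fun p : Fin K × Bool =>
    s13_radius (w (s13_idx p)) (hw _) hη).exists
  set S := ∑ k ∈ Finset.range K, max (1 - η - 2 * Real.pi * h * (k + 1)) 0 ^ γ with hS
  have hn0 : (0 : ℝ) ≤ n := Nat.cast_nonneg _
  have hC : 0 ≤ max C 0 := le_max_right _ _
  have key : ∀ J : ℕ, 2 * J * S ≤ max C 0 * (J / h + 2 * n) := fun J => by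
    let e : (Fin K × Bool) × Fin J → ℤ × ℤ := fun q => (s13_idx q.1, ((q.2 : ℕ) : ℤ))
    have he : Function.Injective e := fun q q' hq =>
      Prod.ext (s13_idx_inj (congrArg Prod.fst hq))
        (Fin.ext (Int.ofNat_injective (congrArg Prod.snd hq)))
    let φ := (Fintype.equivFin ((Fin K × Bool) × Fin J)).symm
    have h1 := H _ (u ∘ e ∘ φ) (hu.comp _ (he.comp φ.injective))
      (Set.indicator (Set.Icc (-(n : ℝ)) (J / h + n)) 1)
      (measurable_one.indicator measurableSet_Icc)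
    have hL : (0 : ℝ) ≤ J / h + 2 * n := by positivity
    have h2 : ∫⁻ x, ENNReal.ofReal (Set.indicator (Set.Icc (-(n : ℝ)) (J / h + n))
        (1 : ℝ → ℝ) x) ^ (γ + 1) = ENNReal.ofReal (J / h + 2 * n) := by
      have : ∀ x, ENNReal.ofReal (Set.indicator (Set.Icc (-(n : ℝ)) (J / h + n))
          (1 : ℝ → ℝ) x) ^ (γ + 1) = Set.indicator (Set.Icc (-(n : ℝ)) (J / h + n)) 1 x := by
        intro x
        by_cases hx : x ∈ Set.Icc (-(n : ℝ)) (J / h + n)
        · simp [Set.indicator_of_mem hx]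
        · simp [Set.indicator_of_notMem hx, show 0 < γ + 1 by linarith]
      simp only [this]
      rw [lintegral_indicator_one measurableSet_Icc, Real.volume_Icc]
      congr 1; ring
    have h3 : ENNReal.ofReal C = ENNReal.ofReal (max C 0) := by
      rcases le_total C 0 with h' | h'
      · rw [max_eq_right h', ENNReal.ofReal_of_nonpos h', ENNReal.ofReal_zero]
      · rw [max_eq_left h']
    rw [h2, h3, ← ENNReal.ofReal_mul hC] at h1
    have h4 : ∀ q : (Fin K × Bool) × Fin J,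
        ENNReal.ofReal (max (1 - η - 2 * Real.pi * h * (((q.1.1 : ℕ) : ℝ) + 1)) 0 ^ γ) ≤
          (pot (Set.indicator (Set.Icc (-(n : ℝ)) (J / h + n)) 1) (u (e q)) - kin (u (e q))) ^ γ := by
      intro q
      have a1 := s13_pot (L := J / h) (w (s13_idx q.1)) (u (e q)) (huw (s13_idx q.1) (q.2 : ℕ))
        (by positivity) (by
          refine div_le_div_of_nonneg_right ?_ hh.le
          exact_mod_cast q.2.2.le) (hn q.1)
      have a2 := hkin (s13_idx q.1) (q.2 : ℕ)
      rw [s13_idx_max] at a2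
      rw [← ENNReal.ofReal_rpow_of_nonneg (le_max_right _ _) hγ.le]
      refine ENNReal.rpow_le_rpow ?_ hγ.le
      refine le_trans ?_ (tsub_le_tsub a1 a2)
      rw [← ENNReal.ofReal_sub _ (by positivity)]
      rcases le_total (1 - η - 2 * Real.pi * h * (((q.1.1 : ℕ) : ℝ) + 1)) 0 with h' | h'
      · rw [max_eq_right h', ENNReal.ofReal_zero]; exact zero_le
      · rw [max_eq_left h']
    have h5 := (Finset.sum_le_sum fun i (_ : i ∈ Finset.univ) => h4 (φ i)).trans h1
    rw [← ENNReal.ofReal_sum_of_nonneg fun _ _ => Real.rpow_nonneg (le_max_right _ _) _,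
      ENNReal.ofReal_le_ofReal_iff (mul_nonneg hC hL),
      φ.sum_comp fun q => max (1 - η - 2 * Real.pi * h * (((q.1.1 : ℕ) : ℝ) + 1)) 0 ^ γ] at h5
    refine le_trans (le_of_eq ?_) h5
    rw [hS, Finset.sum_range, Fintype.sum_prod_type, Fintype.sum_prod_type, Finset.mul_sum]
    refine Finset.sum_congr rfl fun k _ => ?_
    simp only [Finset.sum_const, Finset.card_univ, Fintype.card_fin, Fintype.card_bool,
      nsmul_eq_mul]
    push_cast
    ring
  refine le_of_forall_pos_le_add fun ε hε => ?_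
  obtain ⟨J, hJ⟩ := exists_nat_gt (max C 0 * (2 * n) * h / ε)
  have hJ0 : (0 : ℝ) < J := lt_of_le_of_lt (by positivity) hJ
  have h6 := mul_le_mul_of_nonneg_right (key J) hh.le
  rw [div_lt_iff₀ hε] at hJ
  have h7 : max C 0 * (J / h + 2 * n) * h = max C 0 * J + max C 0 * (2 * n) * h := by
    field_simp
  rw [h7] at h6
  refine le_of_mul_le_mul_left ?_ hJ0
  nlinarith

end Pool.Agent.P.MP_9f4f5e_mp.LT1
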