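import Pool.Agent.P.MP_9f4f5e_mp.LT1.S13

set_option linter.unusedSectionVars false

open MeasureTheory Matrix
open scoped ENNReal ComplexOrder ComplexConjugate FourierTransform
open Pool.Agent.P.MP_9f4f5e_mp.LT (tp dg qf ec fej)

noncomputable section

namespace Pool.Agent.P.MP_9f4f5e_mp.LT1

theorem s14_sum {γ b c : ℝ} (hγ : 0 < γ) (hc : 0 < c) {K : ℕ} (hK : c * K = b) :
    b ^ (γ + 1) / (c * (γ + 1)) ≤ ∑ k ∈ Finset.range K, (b - c * k) ^ γ := by
  have h1 : AntitoneOn (fun s : ℝ => (b - c * s) ^ γ) (Set.Icc 0 (0 + K)) := by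
    intro s _ t ht hst
    have h2 : t ≤ K := by simpa using ht.2
    exact Real.rpow_le_rpow (by nlinarith) (by nlinarith) hγ.le
  have h2 := h1.integral_le_sum
  simp only [zero_add] at h2
  refine le_trans (le_of_eq ?_) h2
  rw [intervalIntegral.integral_comp_sub_mul (fun x : ℝ => x ^ γ) hc.ne' b,
    integral_rpow (Or.inl (by linarith)), hK, sub_self, mul_zero, sub_zero,
    Real.zero_rpow (by linarith), sub_zero, smul_eq_mul]
  field_simp

theorem s14_le {γ C : ℝ} (hγ : 0 < γ) (H : LiebThirring γ C) {b : ℝ} (h0 : 0 < b) (h1 : b < 1) :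
    b ^ (γ + 1) / (Real.pi * (γ + 1)) ≤ max C 0 := by
  obtain ⟨K, hK⟩ := exists_nat_gt (b / (1 - b))
  have hb : 0 < 1 - b := by linarith
  have hK0 : (0 : ℝ) < K := lt_trans (div_pos h0 hb) hK
  obtain ⟨c, hc⟩ : ∃ c, c = b / K := ⟨_, rfl⟩
  have c0 : 0 < c := hc ▸ div_pos h0 hK0
  have c1 : c * K = b := by
    rw [hc]
    field_simp
  have c2 : c < 1 - b := by
    rw [div_lt_iff₀ hb] at hK
    rw [hc, div_lt_iff₀ hK0]
    linarith
  have hp := Real.pi_pos
  have h2 := lower_sum hγ H (h := c / (2 * Real.pi)) (η := 1 - b - c) (by positivity)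
    (by linarith) K
  have h3 : ∀ k ∈ Finset.range K, (b - c * k) ^ γ =
      max (1 - (1 - b - c) - 2 * Real.pi * (c / (2 * Real.pi)) * (k + 1)) 0 ^ γ := fun k hk => by
    have h4 : (k : ℝ) ≤ K := by exact_mod_cast (Finset.mem_range.1 hk).le
    have h5 : 1 - (1 - b - c) - 2 * Real.pi * (c / (2 * Real.pi)) * (k + 1) = b - c * k := by
      field_simp
      ring
    rw [h5, max_eq_left (by nlinarith)]
  rw [← Finset.sum_congr rfl h3] at h2
  refine le_trans ?_ h2
  calc b ^ (γ + 1) / (Real.pi * (γ + 1))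
      = 2 * (c / (2 * Real.pi)) * (b ^ (γ + 1) / (c * (γ + 1))) := by field_simp
    _ ≤ _ := mul_le_mul_of_nonneg_left (s14_sum hγ c0 c1) (by positivity)

theorem lt_lower {γ C : ℝ} (hγ : 0 < γ) (H : LiebThirring γ C) :
    1 / (Real.pi * (γ + 1)) ≤ C := by
  have h1 : ContinuousAt (fun b : ℝ => b ^ (γ + 1) / (Real.pi * (γ + 1))) 1 :=
    (Real.continuousAt_rpow_const 1 (γ + 1) (Or.inl one_ne_zero)).div_const _
  have h2 := h1.tendsto.mono_left (nhdsWithin_le_nhds (s := Set.Iio 1))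
  rw [Real.one_rpow] at h2
  have h3 : 1 / (Real.pi * (γ + 1)) ≤ max C 0 := by
    refine le_of_tendsto h2 ?_
    filter_upwards [Ioo_mem_nhdsLT (show (0 : ℝ) < 1 by norm_num)] with b hb
    exact s14_le hγ H hb.1 hb.2
  have h4 : 0 < 1 / (Real.pi * (γ + 1)) := by
    have := Real.pi_pos
    positivity
  rcases le_max_iff.1 h3 with h | h
  · exact h
  · exact absurd h (not_le.2 h4)

end Pool.Agent.P.MP_9f4f5e_mp.LT1
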