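import Pool.Agent.P.MP_9f4f5e_mp.LT1.Defs

set_option linter.unusedSectionVars false

open MeasureTheory Matrix
open scoped ENNReal ComplexOrder ComplexConjugate FourierTransform
open Pool.Agent.P.MP_9f4f5e_mp.LT (tp dg qf ec fej)

noncomputable section

namespace Pool.Agent.P.MP_9f4f5e_mp.LT1

theorem s2_meas (f : L2) : Measurable (fn f) := (Lp.stronglyMeasurable f).measurable

theorem fn_sq (f : L2) : Integrable (fun x => ‖fn f x‖ ^ 2) ∧ ∫ x, ‖fn f x‖ ^ 2 = ‖f‖ ^ 2 := by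
  refine ⟨(memLp_two_iff_integrable_sq_norm (Lp.memLp f).1).1 (Lp.memLp f), ?_⟩
  rw [← inner_self_eq_norm_sq (𝕜 := ℂ) f, L2.inner_def,
    ← integral_re (L2.integrable_inner (𝕜 := ℂ) f f)]
  exact integral_congr_ae (Filter.Eventually.of_forall fun x =>
    (inner_self_eq_norm_sq (𝕜 := ℂ) (fn f x)).symm)

theorem continuous_uu (h : ℝ) (f : L2) : Continuous (uu h (fn f)) := by
  rcases le_or_gt h 0 with hh | hh
  · have e : uu h (fn f) = fun _ => 0 := by
      funext p; simp [uu, Set.Ico_eq_empty_of_le hh]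
    rw [e]; exact continuous_const
  · have hi : ∀ a b, IntervalIntegrable (fn f) volume a b := fun a b =>
      ((Lp.memLp f).locallyIntegrable one_le_two).integrableOn_isCompact isCompact_uIcc
        |>.intervalIntegrable
    have e : uu h (fn f) = fun p => (∫ x in (0 : ℝ)..(p + h), fn f x) - ∫ x in (0 : ℝ)..p, fn f x := by
      funext p
      rw [intervalIntegral.integral_interval_sub_left (hi _ _) (hi _ _), uu,
        integral_Ico_eq_integral_Ioc, ← intervalIntegral.integral_of_le hh.le,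
        intervalIntegral.integral_comp_add_left (fn f) p, add_zero]
    rw [e]
    have hc := intervalIntegral.continuous_primitive hi 0
    exact (hc.comp (continuous_id.add continuous_const)).sub hc

theorem s2_cs {h : ℝ} {f : ℝ → ℂ} (hf : Measurable f) (p : ℝ) :
    ‖uu h f p‖ₑ ^ 2 ≤ ENNReal.ofReal h * ∫⁻ s in Set.Ico 0 h, ‖f (p + s)‖ₑ ^ 2 := by
  have m : Measurable fun s : ℝ => ‖f (p + s)‖ₑ := by fun_prop
  have h1 := ENNReal.lintegral_mul_le_Lp_mul_Lq (volume.restrict (Set.Ico 0 h))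
    Real.HolderConjugate.two_two (f := fun _ => 1) aemeasurable_const m.aemeasurable
  simp only [Pi.mul_apply, one_mul, one_pow, lintegral_const, Measure.restrict_apply_univ,
    ENNReal.rpow_two, Real.volume_Ico, sub_zero] at h1
  refine (pow_le_pow_left' ((enorm_integral_le_lintegral_enorm _).trans h1) 2).trans_eq ?_
  rw [← ENNReal.mul_rpow_of_nonneg _ _ (by norm_num), ← ENNReal.rpow_two, ← ENNReal.rpow_mul]
  simp

theorem s2_ofReal (c : ℝ) (hc : 0 ≤ c) (z : ℂ) :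
    ENNReal.ofReal (c * ‖z‖ ^ 2) = ENNReal.ofReal c * ‖z‖ₑ ^ 2 := by
  rw [ENNReal.ofReal_mul hc, ENNReal.ofReal_pow (norm_nonneg _), ofReal_norm]

theorem s2_main {h : ℝ} (hh : 0 < h) (f : L2) {w w' : ℝ → ℝ} (hw : Continuous w)
    (hw' : Continuous w') (h0 : ∀ p, 0 ≤ w p) (h0' : ∀ p, 0 ≤ w' p)
    (hle : ∀ p, ∀ s ∈ Set.Ico 0 h, w p ≤ w' (p + s))
    (hI : Integrable fun ξ => w' ξ * ‖fn f ξ‖ ^ 2) :
    Integrable (fun p => w p * ‖uu h (fn f) p‖ ^ 2) ∧
      ∫ p, w p * ‖uu h (fn f) p‖ ^ 2 ≤ h ^ 2 * ∫ ξ, w' ξ * ‖fn f ξ‖ ^ 2 := by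
  have hm := s2_meas f
  set F : ℝ → ℝ≥0∞ := fun ξ => ENNReal.ofReal (w' ξ * ‖fn f ξ‖ ^ 2) with hFdef
  have hF : Measurable F := (hw'.measurable.mul (hm.norm.pow_const 2)).ennreal_ofReal
  have hpt : ∀ p, ENNReal.ofReal (w p * ‖uu h (fn f) p‖ ^ 2) ≤
      ENNReal.ofReal h * ∫⁻ s in Set.Ico 0 h, F (p + s) := by
    intro p
    rw [s2_ofReal _ (h0 p)]
    calc ENNReal.ofReal (w p) * ‖uu h (fn f) p‖ₑ ^ 2
        ≤ ENNReal.ofReal (w p) * (ENNReal.ofReal h * ∫⁻ s in Set.Ico 0 h, ‖fn f (p + s)‖ₑ ^ 2) :=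
          mul_le_mul_right (s2_cs hm p) _
      _ = ENNReal.ofReal h * ∫⁻ s in Set.Ico 0 h, ENNReal.ofReal (w p) * ‖fn f (p + s)‖ₑ ^ 2 := by
          rw [lintegral_const_mul' _ _ ENNReal.ofReal_ne_top, mul_left_comm]
      _ ≤ ENNReal.ofReal h * ∫⁻ s in Set.Ico 0 h, F (p + s) := by
          refine mul_le_mul_right (setLIntegral_mono' measurableSet_Ico fun s hs => ?_) _
          simp only [hFdef]
          rw [s2_ofReal _ (h0' _)]
          exact mul_le_mul_left (ENNReal.ofReal_le_ofReal (hle p s hs)) _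
  have hm2 : Measurable (Function.uncurry fun (p s : ℝ) => F (p + s)) :=
    hF.comp (measurable_fst.add measurable_snd)
  have hpos : ∀ ξ, 0 ≤ w' ξ * ‖fn f ξ‖ ^ 2 := fun ξ => mul_nonneg (h0' ξ) (sq_nonneg _)
  have hL : ∫⁻ p, ENNReal.ofReal (w p * ‖uu h (fn f) p‖ ^ 2) ≤
      ENNReal.ofReal (h ^ 2 * ∫ ξ, w' ξ * ‖fn f ξ‖ ^ 2) :=
    calc _ ≤ ∫⁻ p, ENNReal.ofReal h * ∫⁻ s in Set.Ico 0 h, F (p + s) := lintegral_mono hpt
      _ = ENNReal.ofReal h * ∫⁻ s in Set.Ico 0 h, ∫⁻ p, F (p + s) := by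
        rw [lintegral_const_mul' _ _ ENNReal.ofReal_ne_top,
          lintegral_lintegral_swap hm2.aemeasurable]
      _ = ENNReal.ofReal h * ∫⁻ _ in Set.Ico 0 h, ∫⁻ p, F p := by
        simp only [lintegral_add_right_eq_self F]
      _ = _ := by
        rw [setLIntegral_const, Real.volume_Ico, sub_zero, ENNReal.ofReal_mul (sq_nonneg h),
          ofReal_integral_eq_lintegral_ofReal hI (Filter.Eventually.of_forall hpos),
          ENNReal.ofReal_pow hh.le]
        ring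
  have hg0 : ∀ p, 0 ≤ w p * ‖uu h (fn f) p‖ ^ 2 := fun p => mul_nonneg (h0 p) (sq_nonneg _)
  have hgm : AEStronglyMeasurable (fun p => w p * ‖uu h (fn f) p‖ ^ 2) volume :=
    (hw.mul ((continuous_uu h f).norm.pow 2)).aestronglyMeasurable
  refine ⟨⟨hgm, (hasFiniteIntegral_iff_ofReal (Filter.Eventually.of_forall hg0)).2
    (hL.trans_lt ENNReal.ofReal_lt_top)⟩, ?_⟩
  rw [integral_eq_lintegral_of_nonneg_ae (Filter.Eventually.of_forall hg0) hgm]
  exact ENNReal.toReal_le_of_le_ofReal (mul_nonneg (sq_nonneg h) (integral_nonneg hpos)) hL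

theorem uu_sq {h : ℝ} (hh : 0 < h) (f : L2) :
    Integrable (fun p => ‖uu h (fn f) p‖ ^ 2) ∧ ∫ p, ‖uu h (fn f) p‖ ^ 2 ≤ h ^ 2 * ‖f‖ ^ 2 := by
  have := s2_main hh f (w := fun _ => 1) (w' := fun _ => 1) continuous_const continuous_const
    (fun _ => zero_le_one) (fun _ => zero_le_one) (fun _ _ _ => le_rfl)
    (by simpa only [one_mul] using (fn_sq f).1)
  simpa only [one_mul, (fn_sq f).2] using this

theorem uu_kin {h : ℝ} (hh : 0 < h) (f : L2) (hf : Integrable fun ξ => |ξ| * ‖fn f ξ‖ ^ 2) :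
    Integrable (fun p => |p| * ‖uu h (fn f) p‖ ^ 2) ∧
      ∫ p, |p| * ‖uu h (fn f) p‖ ^ 2 ≤ h ^ 2 * ((∫ ξ, |ξ| * ‖fn f ξ‖ ^ 2) + h * ‖f‖ ^ 2) := by
  have h2 := (fn_sq f).1.const_mul h
  have := s2_main hh f (w := fun p => |p|) (w' := fun p => |p| + h) continuous_abs
    (continuous_abs.add continuous_const) abs_nonneg (fun p => add_nonneg (abs_nonneg p) hh.le)
    (fun p s hs => by
      have h1 : |p| ≤ |p + s| + |s| := by simpa using abs_sub (p + s) s
      rw [abs_of_nonneg hs.1] at h1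
      linarith [hs.2])
    (by simp only [add_mul]; exact hf.add h2)
  simp only [add_mul] at this
  rwa [integral_add hf h2, integral_const_mul, (fn_sq f).2] at this

end Pool.Agent.P.MP_9f4f5e_mp.LT1
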