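import Pool.Agent.P.MP_9f4f5e_mp.LT.E2
import Pool.Agent.P.MP_9f4f5e_mp.LT1.S2

set_option linter.unusedSectionVars false

open MeasureTheory Matrix
open scoped ENNReal ComplexOrder ComplexConjugate FourierTransform
open Pool.Agent.P.MP_9f4f5e_mp.LT (tp dg qf ec fej)

noncomputable section

namespace Pool.Agent.P.MP_9f4f5e_mp.LT1

theorem s3_fin (h : ℝ) : IsFiniteMeasure ((volume : Measure ℝ).restrict (Set.Ico 0 h)) :=
  isFiniteMeasure_restrict.2 measure_Ico_lt_top.ne

theorem continuous_ww (h : ℝ) : Continuous (ww h) := by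
  have := s3_fin h
  exact continuous_of_dominated (F := fun z s : ℝ => ec (-(s * z))) (bound := fun _ => 1)
    (fun z => Continuous.aestronglyMeasurable (by fun_prop))
    (fun z => Filter.Eventually.of_forall fun s => (LT.norm_ec _).le) (integrable_const 1)
    (Filter.Eventually.of_forall fun s => by fun_prop)

theorem norm_ww_le {h : ℝ} (hh : 0 < h) (z : ℝ) : ‖ww h z‖ ≤ h := by
  have := norm_setIntegral_le_of_norm_le_const (μ := (volume : Measure ℝ)) (s := Set.Ico 0 h)
    (f := fun s : ℝ => ec (-(s * z))) (C := 1) measure_Ico_lt_top fun s _ => (LT.norm_ec _).le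
  rwa [Real.volume_real_Ico_of_le hh.le, one_mul, sub_zero] at this

theorem s3_shift {A : ℝ → ℂ} (hA : MemLp A 2 volume) (k : ℝ) :
    MemLp (fun p => A (p + k)) 2 volume :=
  hA.comp_measurePreserving (measurePreserving_add_right volume k)

theorem s3_conj {A : ℝ → ℂ} (hA : MemLp A 2 volume) : MemLp (fun p => conj (A p)) 2 volume :=
  hA.congr_norm (Complex.continuous_conj.comp_aestronglyMeasurable hA.1)
    (Filter.Eventually.of_forall fun _ => (Complex.norm_conj _).symm)

theorem s3_uu_mul {A B : ℝ → ℂ} (hA : Measurable A) (hB : Measurable B)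
    (hA2 : MemLp A 2 volume) (hB2 : MemLp B 2 volume) (h k : ℝ) :
    ∫ p, uu h A (p + k) * B p = ∫ s in Set.Ico 0 h, ∫ p, A (p + k + s) * B p := by
  have := s3_fin h
  have hm : Measurable fun q : ℝ × ℝ => A (q.2 + k + q.1) * B q.2 := by fun_prop
  have h1 : ∀ s : ℝ, MemLp (fun p => A (p + k + s)) 2 volume := fun s => by
    simpa only [add_assoc] using s3_shift hA2 (k + s)
  have h2 : ∀ s : ℝ, ∫ p, ‖A (p + k + s)‖ ^ 2 = ∫ p, ‖A p‖ ^ 2 := fun s => by
    simpa only [add_assoc] using
      integral_add_right_eq_self (μ := volume) (fun p => ‖A p‖ ^ 2) (k + s)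
  have h3 : ∀ s : ℝ, Integrable fun p => A (p + k + s) * B p := fun s => (h1 s).integrable_mul hB2
  have hi : Integrable (fun q : ℝ × ℝ => A (q.2 + k + q.1) * B q.2)
      (((volume : Measure ℝ).restrict (Set.Ico 0 h)).prod volume) := by
    refine (integrable_prod_iff hm.aestronglyMeasurable).2 ⟨Filter.Eventually.of_forall h3, ?_⟩
    refine Integrable.of_bound hm.norm.stronglyMeasurable.integral_prod_right'.aestronglyMeasurable
      ((∫ p, ‖A p‖ ^ 2) + ∫ p, ‖B p‖ ^ 2) (Filter.Eventually.of_forall fun s => ?_)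
    have i1 := (memLp_two_iff_integrable_sq_norm (h1 s).1).1 (h1 s)
    have i2 := (memLp_two_iff_integrable_sq_norm hB2.1).1 hB2
    rw [Real.norm_of_nonneg (integral_nonneg fun _ => norm_nonneg _), ← h2 s, ← integral_add i1 i2]
    refine integral_mono (h3 s).norm (i1.add i2) fun p => ?_
    simp only [norm_mul]
    nlinarith [sq_nonneg (‖A (p + k + s)‖ - ‖B p‖), norm_nonneg (A (p + k + s)), norm_nonneg (B p)]
  rw [integral_integral_swap (f := fun s p : ℝ => A (p + k + s) * B p) hi]
  simp only [uu, integral_mul_const]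

theorem s3_swap {g : ℝ → ℂ} (hg : Integrable g) (h : ℝ) {φ : ℝ → ℝ → ℝ}
    (hφ : Continuous fun p : ℝ × ℝ => φ p.1 p.2) :
    ∫ s in Set.Ico 0 h, ∫ z, g z * ec (φ s z) = ∫ z, g z * ∫ s in Set.Ico 0 h, ec (φ s z) := by
  have := s3_fin h
  have h1 : Integrable (fun p : ℝ × ℝ => (1 : ℂ) * g p.2)
      (((volume : Measure ℝ).restrict (Set.Ico 0 h)).prod volume) :=
    (integrable_const (1 : ℂ)).mul_prod hg
  have h2 : Integrable (Function.uncurry fun s z : ℝ => g z * ec (φ s z))
      (((volume : Measure ℝ).restrict (Set.Ico 0 h)).prod volume) := by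
    have h3 := h1.mul_bdd (c := 1) (g := fun p : ℝ × ℝ => ec (φ p.1 p.2))
      (LT.continuous_ec.comp hφ).aestronglyMeasurable
      (Filter.Eventually.of_forall fun p => (LT.norm_ec _).le)
    refine h3.congr (Filter.Eventually.of_forall fun p => ?_)
    simp [Function.uncurry]
  rw [integral_integral_swap h2]
  simp only [integral_const_mul]

theorem s3_conj_ww (h z : ℝ) : ∫ s in Set.Ico 0 h, ec (s * z) = conj (ww h z) := by
  rw [ww, ← integral_conj]
  simp only [← LT.ec_neg, neg_neg]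

theorem s3_rho {ρ : ℝ → ℝ} (hρ : Integrable ρ) {h : ℝ} (hh : 0 < h) (k : ℝ) :
    ∫ s in Set.Ico 0 h, ∫ s' in Set.Ico 0 h, ∫ z, (ρ z : ℂ) * ec (-((k + s - s') * z))
      = ∫ z, ((ρ z * ‖ww h z‖ ^ 2 : ℝ) : ℂ) * ec (-(k * z)) := by
  have hρ' : Integrable fun z => (ρ z : ℂ) := hρ.ofReal
  have hb : ∀ v : ℝ, ∀ {g : ℝ → ℂ}, Integrable g →
      Integrable fun z => g z * ec (-(v * z)) := fun v g hg =>
    hg.mul_bdd (c := 1) (Continuous.aestronglyMeasurable (by fun_prop))
      (Filter.Eventually.of_forall fun z => (LT.norm_ec _).le)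
  have hg : Integrable fun z => (ρ z : ℂ) * ec (-(k * z)) * conj (ww h z) :=
    (hb k hρ').mul_bdd (c := h)
      (Complex.continuous_conj.comp (continuous_ww h)).aestronglyMeasurable
      (Filter.Eventually.of_forall fun z => by
        rw [Complex.norm_conj]; exact norm_ww_le hh z)
  have h1 : ∀ s : ℝ, ∫ s' in Set.Ico 0 h, ∫ z, (ρ z : ℂ) * ec (-((k + s - s') * z))
      = ∫ z, ((ρ z : ℂ) * ec (-(k * z)) * conj (ww h z)) * ec (-(s * z)) := by
    intro s
    have h2 := s3_swap (hb s (hb k hρ')) h (φ := fun s' z => s' * z) (by fun_prop)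
    have h3 : ∀ s' z : ℝ, (ρ z : ℂ) * ec (-((k + s - s') * z))
        = (ρ z : ℂ) * ec (-(k * z)) * ec (-(s * z)) * ec (s' * z) := by
      intro s' z
      rw [mul_assoc, mul_assoc, ← LT.ec_add, ← LT.ec_add]
      congr 2
      ring
    simp only [h3]
    rw [h2]
    refine integral_congr_ae (Filter.Eventually.of_forall fun z => ?_)
    simp only
    rw [s3_conj_ww]
    ring
  simp only [h1]
  rw [s3_swap hg h (φ := fun s z => -(s * z)) (by fun_prop)]
  refine integral_congr_ae (Filter.Eventually.of_forall fun z => ?_)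
  simp only
  have h4 : ∫ s in Set.Ico 0 h, ec (-(s * z)) = ww h z := rfl
  have h5 : ((‖ww h z‖ ^ 2 : ℝ) : ℂ) = ww h z * conj (ww h z) := by
    rw [Complex.mul_conj, Complex.normSq_eq_norm_sq]
  rw [h4, Complex.ofReal_mul, h5]
  ring

theorem s3_corr (u : L2) (k : ℝ) : ∫ p, fn (ft u) (p + k) * conj (fn (ft u) p)
    = ∫ z, ((‖fn u z‖ ^ 2 : ℝ) : ℂ) * ec (-(k * z)) := by
  refine (LT.fourier_corr u k).trans (integral_congr_ae (Filter.Eventually.of_forall fun z => ?_))
  simp only [fn, RCLike.inner_apply, conj_trivial, mul_comm z k]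

theorem uu_corr {h : ℝ} (hh : 0 < h) (u : L2) (k : ℝ) :
    Integrable (fun p => uu h (fn (ft u)) (p + k) * conj (uu h (fn (ft u)) p)) ∧
      ∫ p, uu h (fn (ft u)) (p + k) * conj (uu h (fn (ft u)) p)
        = ∫ z, ((‖fn u z‖ ^ 2 * ‖ww h z‖ ^ 2 : ℝ) : ℂ) * ec (-(k * z)) := by
  have hc := continuous_uu h (ft u)
  have hU : MemLp (uu h (fn (ft u))) 2 volume :=
    (memLp_two_iff_integrable_sq_norm hc.aestronglyMeasurable).2 (uu_sq hh (ft u)).1
  have hm : Measurable (fn (ft u)) := (Lp.stronglyMeasurable (ft u)).measurable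
  have h2 : MemLp (fn (ft u)) 2 volume := Lp.memLp (ft u)
  have hcorr := s3_corr u
  generalize fn (ft u) = f at hc hU hm h2 hcorr
  refine ⟨(s3_shift hU k).integrable_mul (s3_conj hU), ?_⟩
  rw [s3_uu_mul (B := fun p => conj (uu h f p)) hm
    (Complex.continuous_conj.comp hc).measurable h2 (s3_conj hU), ← s3_rho (fn_sq u).1 hh]
  refine integral_congr_ae (Filter.Eventually.of_forall fun s => ?_)
  have h1 : ∀ p : ℝ, f (p + k + s) * conj (uu h f p)
      = uu h (fun p => conj (f p)) (p + 0) * f (p + (k + s)) := by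
    intro p
    simp only [uu, add_zero, add_assoc]
    rw [integral_conj, mul_comm]
  simp only [h1]
  rw [s3_uu_mul (A := fun p => conj (f p)) (B := fun p => f (p + (k + s)))
    (Complex.continuous_conj.measurable.comp hm) (hm.comp (measurable_add_const _)) (s3_conj h2)
    (s3_shift h2 _)]
  refine integral_congr_ae (Filter.Eventually.of_forall fun s' => ?_)
  simp only
  rw [← hcorr, ← integral_add_right_eq_self (fun p => f (p + (k + s - s')) * conj (f p)) s']
  refine integral_congr_ae (Filter.Eventually.of_forall fun p => ?_)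
  have h3 : p + s' + (k + s - s') = p + (k + s) := by ring
  simp only [h3, add_zero]
  rw [mul_comm]

end Pool.Agent.P.MP_9f4f5e_mp.LT1
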