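import Pool.Agent.P.MP_9f4f5e_mp.LT1.Defs

set_option linter.unusedSectionVars false

open MeasureTheory Matrix
open scoped ENNReal ComplexOrder ComplexConjugate FourierTransform
open Pool.Agent.P.MP_9f4f5e_mp.LT (tp dg qf ec fej)

noncomputable section

namespace Pool.Agent.P.MP_9f4f5e_mp.LT1

theorem orthonormal_ft {κ : Type} {u : κ → L2} (hu : Orthonormal ℂ u) :
    Orthonormal ℂ fun k => ft (u k) := by
  classical
  rw [orthonormal_iff_ite] at hu ⊢
  intro i j
  rw [← hu i j]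
  exact Lp.inner_fourier_eq _ _

/-- the indicator of a cell -/
def s4_e (h p : ℝ) : L2 :=
  indicatorConstLp 2 (measurableSet_Ico (a := p) (b := p + h)) (by simp) (1 : ℂ)

theorem s4_inner (h p : ℝ) (f : L2) : inner ℂ (s4_e h p) f = uu h (fn f) p := by
  rw [s4_e, L2.inner_indicatorConstLp_one, uu, ← integral_indicator measurableSet_Ico,
    ← integral_indicator measurableSet_Ico, ← integral_add_left_eq_self _ p]
  refine integral_congr_ae (Filter.Eventually.of_forall fun s => ?_)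
  by_cases hs : s ∈ Set.Ico 0 h
  · have h2 : p + s ∈ Set.Ico p (p + h) := ⟨by linarith [hs.1], by linarith [hs.2]⟩
    simp only [Set.indicator_of_mem hs, Set.indicator_of_mem h2, fn]
  · have h2 : p + s ∉ Set.Ico p (p + h) := fun h2 =>
      hs ⟨by linarith [h2.1], by linarith [h2.2]⟩
    simp only [Set.indicator_of_notMem hs, Set.indicator_of_notMem h2]

theorem s4_inner_e (h p q : ℝ) : inner ℂ (s4_e h p) (s4_e h q) =
    ((volume.real (Set.Ico p (p + h) ∩ Set.Ico q (q + h)) : ℝ) : ℂ) := by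
  exact L2.inner_indicatorConstLp_one_indicatorConstLp_one measurableSet_Ico measurableSet_Ico
    (by simp) (by simp)

theorem s4_orth {h : ℝ} (hh : 0 < h) {m : ℕ} (t : ℝ) (i j : Fin m) :
    inner ℂ (s4_e h (h * ((i : ℕ) : ℝ) - t)) (s4_e h (h * ((j : ℕ) : ℝ) - t)) =
      if i = j then (h : ℂ) else 0 := by
  rw [s4_inner_e]
  split_ifs with hij
  · subst hij
    rw [Set.inter_self, Real.volume_real_Ico_of_le (by linarith)]
    simp
  · have key : ∀ a b : ℕ, a < b → Set.Ico (h * (a : ℝ) - t) (h * a - t + h) ∩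
        Set.Ico (h * (b : ℝ) - t) (h * b - t + h) = ∅ := by
      intro a b hab
      have h1 : (a : ℝ) + 1 ≤ b := by exact_mod_cast hab
      refine Set.eq_empty_of_forall_notMem fun x hx => ?_
      have h2 := hx.1.2
      have h3 := hx.2.1
      nlinarith
    rcases lt_or_gt_of_ne (fun e => hij (Fin.ext e) : (i : ℕ) ≠ j) with h1 | h1
    · rw [key _ _ h1]
      simp
    · rw [Set.inter_comm, key _ _ h1]
      simp

theorem uu_bessel {κ : Type} [Fintype κ] {f : κ → L2} (hf : Orthonormal ℂ f) {h : ℝ}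
    (hh : 0 < h) {m : ℕ} (t : ℝ) (c : Fin m → ℂ) :
    ∑ k, ‖∑ i : Fin m, conj (c i) * uu h (fn (f k)) (h * ((i : ℕ) : ℝ) - t)‖ ^ 2
      ≤ h * ∑ i, ‖c i‖ ^ 2 := by
  set g : L2 := ∑ i : Fin m, c i • s4_e h (h * ((i : ℕ) : ℝ) - t) with hg
  have h1 : ∀ k, ∑ i : Fin m, conj (c i) * uu h (fn (f k)) (h * ((i : ℕ) : ℝ) - t) =
      inner ℂ g (f k) := by
    intro k
    rw [hg, sum_inner]
    refine Finset.sum_congr rfl fun i _ => ?_
    rw [inner_smul_left, s4_inner]
  have h2 : inner ℂ g g = ((h * ∑ i, ‖c i‖ ^ 2 : ℝ) : ℂ) := by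
    rw [hg, sum_inner]
    push_cast
    rw [Finset.mul_sum]
    refine Finset.sum_congr rfl fun i _ => ?_
    rw [inner_sum]
    simp only [inner_smul_left, inner_smul_right, s4_orth hh]
    rw [Finset.sum_eq_single i]
    · rw [if_pos rfl, ← Complex.mul_conj']
      ring
    · intro j _ hj
      rw [if_neg hj.symm]
      simp
    · simp
  have h3 : ‖g‖ ^ 2 = h * ∑ i, ‖c i‖ ^ 2 := by
    rw [inner_self_eq_norm_sq_to_K] at h2
    have h4 : ((‖g‖ ^ 2 : ℝ) : ℂ) = ((h * ∑ i, ‖c i‖ ^ 2 : ℝ) : ℂ) := by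
      rw [← h2]
      push_cast
      rfl
    exact_mod_cast h4
  rw [← h3]
  refine le_trans (le_of_eq ?_) (hf.sum_inner_products_le g (s := Finset.univ))
  refine Finset.sum_congr rfl fun k _ => ?_
  rw [h1, norm_inner_symm]

end Pool.Agent.P.MP_9f4f5e_mp.LT1
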