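import Pool.Agent.P.MP_9f4f5e_mp.LT.B5
import Pool.Agent.P.MP_9f4f5e_mp.LT1.S1
import Pool.Agent.P.MP_9f4f5e_mp.LT1.S3
import Pool.Agent.P.MP_9f4f5e_mp.LT1.S4

set_option linter.unusedSectionVars false

open MeasureTheory Matrix
open scoped ENNReal ComplexOrder ComplexConjugate FourierTransform
open Pool.Agent.P.MP_9f4f5e_mp.LT (tp dg qf ec fej)

noncomputable section

namespace Pool.Agent.P.MP_9f4f5e_mp.LT1

theorem s5_qf {m : ℕ} (W : Matrix (Fin m) (Fin m) ℂ) (v : Fin m → ℂ) :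
    qf W v = (∑ i, ∑ j, v i * conj (v j) * W j i).re := by
  unfold qf
  congr 1
  simp only [dotProduct, Matrix.mulVec, Pi.star_apply, Finset.mul_sum, RCLike.star_def]
  rw [Finset.sum_comm]
  exact Finset.sum_congr rfl fun i _ => Finset.sum_congr rfl fun j _ => by ring

theorem s5_norm {κ : Type} {u : κ → L2} (hu : Orthonormal ℂ u) (k : κ) : ‖ft (u k)‖ = 1 :=
  (orthonormal_ft hu).1 k

theorem s5_corr {h : ℝ} (hh : 0 < h) (u : L2) (a b : ℝ) :
    Integrable (fun t => uu h (fn (ft u)) (a - t) * conj (uu h (fn (ft u)) (b - t))) ∧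
      ∫ t, uu h (fn (ft u)) (a - t) * conj (uu h (fn (ft u)) (b - t))
        = ∫ z, ((‖fn u z‖ ^ 2 * ‖ww h z‖ ^ 2 : ℝ) : ℂ) * ec (-((a - b) * z)) := by
  obtain ⟨h1, h2⟩ := uu_corr hh u (a - b)
  have e : (fun t => uu h (fn (ft u)) (a - t) * conj (uu h (fn (ft u)) (b - t))) =
      fun t => (fun p => uu h (fn (ft u)) (p + (a - b)) * conj (uu h (fn (ft u)) p)) (b - t) := by
    funext t
    have : b - t + (a - b) = a - t := by ring
    simp only [this]
  rw [e]
  exact ⟨h1.comp_sub_left b, (integral_sub_left_eq_self _ volume b).trans h2⟩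

theorem finite_level {κ : Type} [Fintype κ] {u : κ → L2} (hu : Orthonormal ℂ u)
    (hT : ∀ k, Integrable fun ξ => |ξ| * ‖fn (ft (u k)) ξ‖ ^ 2) {h : ℝ} (hh : 0 < h) {m : ℕ}
    {W : Matrix (Fin m) (Fin m) ℂ} (hW : W.IsHermitian) (c : κ → ℝ) (hc : ∀ k, 0 ≤ c k) :
    ∑ k, (2 * c k * ((∑ i : Fin m, ∑ j : Fin m,
        (∫ z, ((‖fn (u k) z‖ ^ 2 * ‖ww h z‖ ^ 2 : ℝ) : ℂ)
          * ec (-((h * ((i : ℕ) : ℝ) - h * ((j : ℕ) : ℝ)) * z))) * W j i).re
        - m * h ^ 2 * (tk (u k) + h)) - c k ^ 2 * (m * h ^ 2))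
      ≤ h * (2 / 3 * tp 3 W) := by
  set a : Fin m → ℝ := fun i => h * ((i : ℕ) : ℝ) with ha
  set v : ℝ → κ → Fin m → ℂ := fun t k i => uu h (fn (ft (u k))) (a i - t) with hv
  have hC := fun k i j => s5_corr hh (u k) (a i) (a j)
  have hK : ∀ k i, Integrable (fun t => |a i - t| * ‖v t k i‖ ^ 2) ∧
      ∫ t, |a i - t| * ‖v t k i‖ ^ 2 ≤ h ^ 2 * (tk (u k) + h) := fun k i => by
    obtain ⟨h1, h2⟩ := uu_kin hh (ft (u k)) (hT k)
    rw [s5_norm hu k, one_pow, mul_one] at h2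
    exact ⟨h1.comp_sub_left (a i), (integral_sub_left_eq_self
      (fun p => |p| * ‖uu h (fn (ft (u k))) p‖ ^ 2) volume (a i)).trans_le h2⟩
  have hS : ∀ k i, Integrable (fun t => ‖v t k i‖ ^ 2) ∧ ∫ t, ‖v t k i‖ ^ 2 ≤ h ^ 2 :=
    fun k i => by
      obtain ⟨h1, h2⟩ := uu_sq hh (ft (u k))
      rw [s5_norm hu k, one_pow, mul_one] at h2
      exact ⟨h1.comp_sub_left (a i), (integral_sub_left_eq_self
        (fun p => ‖uu h (fn (ft (u k))) p‖ ^ 2) volume (a i)).trans_le h2⟩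
  have hA : ∀ k, Integrable fun t => ∑ i, ∑ j, v t k i * conj (v t k j) * W j i := fun k =>
    integrable_finsetSum _ fun i _ => integrable_finsetSum _ fun j _ => (hC k i j).1.mul_const _
  have hA' : ∀ k, Integrable fun t => (∑ i, ∑ j, v t k i * conj (v t k j) * W j i).re :=
    fun k => (hA k).re
  have hB : ∀ k, Integrable fun t => ∑ i, |a i - t| * ‖v t k i‖ ^ 2 := fun k =>
    integrable_finsetSum _ fun i _ => (hK k i).1
  have hD : ∀ k, Integrable fun t => ∑ i, ‖v t k i‖ ^ 2 := fun k =>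
    integrable_finsetSum _ fun i _ => (hS k i).1
  have hI : ∀ k, Integrable fun t => 2 * c k * ((∑ i, ∑ j, v t k i * conj (v t k j) * W j i).re
      - ∑ i, |a i - t| * ‖v t k i‖ ^ 2) - c k ^ 2 * ∑ i, ‖v t k i‖ ^ 2 := fun k =>
    (((hA' k).sub (hB k)).const_mul _).sub ((hD k).const_mul _)
  have hpt : ∀ t, ∑ k, (2 * c k * ((∑ i, ∑ j, v t k i * conj (v t k j) * W j i).re
      - ∑ i, |a i - t| * ‖v t k i‖ ^ 2) - c k ^ 2 * ∑ i, ‖v t k i‖ ^ 2)
      ≤ h * tp 2 (W - dg fun i => |a i - t|) := fun t => by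
    have := peierls (hW.sub (LT.dg_isHermitian fun i => |a i - t|)) (v t)
      (uu_bessel (orthonormal_ft hu) hh t) c hc
    simpa only [LT.qf_sub, LT.qf_dg, s5_qf W] using this
  have key := integral_mono (integrable_finsetSum _ fun k _ => hI k)
    ((LT.integrable_tp hW a two_ne_zero).const_mul h) hpt
  rw [integral_const_mul, integral_finsetSum _ fun k _ => hI k] at key
  refine le_trans (Finset.sum_le_sum fun k _ => ?_)
    (key.trans (mul_le_mul_of_nonneg_left (LT.lt_two hW a) hh.le))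
  have eA : ∫ t, (∑ i, ∑ j, v t k i * conj (v t k j) * W j i).re
      = (∑ i, ∑ j, (∫ z, ((‖fn (u k) z‖ ^ 2 * ‖ww h z‖ ^ 2 : ℝ) : ℂ)
          * ec (-((a i - a j) * z))) * W j i).re := by
    refine (integral_re (hA k)).trans (congrArg Complex.re ?_)
    rw [integral_finsetSum _ fun i _ =>
      integrable_finsetSum _ fun j _ => (hC k i j).1.mul_const _]
    refine Finset.sum_congr rfl fun i _ => ?_
    rw [integral_finsetSum _ fun j _ => (hC k i j).1.mul_const _]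
    refine Finset.sum_congr rfl fun j _ => ?_
    rw [integral_mul_const, (hC k i j).2]
  have eB : ∫ t, ∑ i, |a i - t| * ‖v t k i‖ ^ 2 ≤ m * h ^ 2 * (tk (u k) + h) := by
    rw [integral_finsetSum _ fun i _ => (hK k i).1]
    refine (Finset.sum_le_sum fun i _ => (hK k i).2).trans_eq ?_
    rw [Finset.sum_const, Finset.card_univ, Fintype.card_fin, nsmul_eq_mul, mul_assoc]
  have eD : ∫ t, ∑ i, ‖v t k i‖ ^ 2 ≤ m * h ^ 2 := by
    rw [integral_finsetSum _ fun i _ => (hS k i).1]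
    refine (Finset.sum_le_sum fun i _ => (hS k i).2).trans_eq ?_
    rw [Finset.sum_const, Finset.card_univ, Fintype.card_fin, nsmul_eq_mul]
  have i1 : Integrable fun t => (∑ i, ∑ j, v t k i * conj (v t k j) * W j i).re
      - ∑ i, |a i - t| * ‖v t k i‖ ^ 2 := (hA' k).sub (hB k)
  rw [integral_sub (i1.const_mul _) ((hD k).const_mul _), integral_const_mul, integral_const_mul,
    integral_sub (hA' k) (hB k), eA]
  have f1 := mul_le_mul_of_nonneg_left eB (mul_nonneg zero_le_two (hc k))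
  have f2 := mul_le_mul_of_nonneg_left eD (sq_nonneg (c k))
  linarith

end Pool.Agent.P.MP_9f4f5e_mp.LT1
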