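import Pool.Agent.P.MP_9f4f5e_mp.LT.G4
import Pool.Agent.P.MP_9f4f5e_mp.LT1.S5

set_option linter.unusedSectionVars false

open MeasureTheory Matrix
open scoped ENNReal ComplexOrder ComplexConjugate FourierTransform
open Pool.Agent.P.MP_9f4f5e_mp.LT (tp dg qf ec fej)

noncomputable section

namespace Pool.Agent.P.MP_9f4f5e_mp.LT1

theorem s6_out {h : ℝ} {V : ℝ → ℝ} (hs : ∀ x, 1 / (2 * h) ≤ |x| → V x = 0) (x : ℝ)
    (hx : x ∉ Set.Ioo (-(1 / (2 * h))) (1 / (2 * h))) : V x = 0 :=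
  hs x (not_lt.1 fun hc => hx (abs_lt.1 hc))

theorem s6_integrable {h : ℝ} {V : ℝ → ℝ} (hV : Measurable V) {M : ℝ} (h0 : ∀ x, 0 ≤ V x)
    (hM : ∀ x, V x ≤ M) (hs : ∀ x, 1 / (2 * h) ≤ |x| → V x = 0) : Integrable V := by
  have h1 : IntegrableOn V (Set.Ioo (-(1 / (2 * h))) (1 / (2 * h))) volume :=
    Measure.integrableOn_of_bounded measure_Ioo_lt_top.ne hV.aestronglyMeasurable
      (M := M) (Filter.Eventually.of_forall fun x => by
        rw [Real.norm_eq_abs, abs_of_nonneg (h0 x)]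
        exact hM x)
  exact h1.integrable_of_forall_notMem_eq_zero (s6_out hs)

theorem s6_integrable_mul {A : ℝ → ℝ} (hA : Integrable A) {e : ℝ → ℂ} (he : Continuous e)
    (he1 : ∀ x, ‖e x‖ = 1) : Integrable fun x => (A x : ℂ) * e x :=
  hA.ofReal.mul_bdd (c := 1) he.aestronglyMeasurable
    (Filter.Eventually.of_forall fun x => (he1 x).le)

theorem s6_frame {h : ℝ} (hh : 0 < h) {m : ℕ} (c : Fin m → ℂ) :
    h * ∫ x in Set.Ioo (-(1 / (2 * h))) (1 / (2 * h)),
      ‖∑ i : Fin m, conj (c i) * ec (-(h * ((i : ℕ) : ℝ) * x))‖ ^ 2 ≤ ∑ i, ‖c i‖ ^ 2 := by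
  have hi : ∀ i j : Fin m, IntegrableOn (fun x : ℝ => conj (c i) * c j *
      ec (h * (((j : ℕ) : ℤ) - ((i : ℕ) : ℤ) : ℤ) * x)) (Set.Ioo (-(1 / (2 * h))) (1 / (2 * h))) :=
    fun i j => LT.g4_int (by fun_prop) _ _
  have e : ∀ x : ℝ, ((‖∑ i : Fin m, conj (c i) * ec (-(h * ((i : ℕ) : ℝ) * x))‖ ^ 2 : ℝ) : ℂ) =
      ∑ i : Fin m, ∑ j : Fin m,
        conj (c i) * c j * ec (h * (((j : ℕ) : ℤ) - ((i : ℕ) : ℤ) : ℤ) * x) := by
    intro x
    rw [Complex.ofReal_pow, ← Complex.mul_conj', map_sum, Finset.sum_mul_sum]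
    refine Finset.sum_congr rfl fun i _ => Finset.sum_congr rfl fun j _ => ?_
    have e1 : ec (h * (((j : ℕ) : ℤ) - ((i : ℕ) : ℤ) : ℤ) * x) =
        ec (-(h * ((i : ℕ) : ℝ) * x)) * conj (ec (-(h * ((j : ℕ) : ℝ) * x))) := by
      rw [← LT.ec_neg, ← LT.ec_add]
      congr 1
      push_cast
      ring
    rw [e1, map_mul, Complex.conj_conj]
    ring
  have e2 : ∀ i j : Fin m, ∫ x in Set.Ioo (-(1 / (2 * h))) (1 / (2 * h)), conj (c i) * c j *
      ec (h * (((j : ℕ) : ℤ) - ((i : ℕ) : ℤ) : ℤ) * x) =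
        if i = j then ((‖c i‖ ^ 2 / h : ℝ) : ℂ) else 0 := by
    intro i j
    rw [integral_const_mul, LT.integral_ec_int hh]
    by_cases hij : i = j
    · subst hij
      rw [Complex.conj_mul']
      simp [div_eq_mul_inv]
    · rw [if_neg hij, if_neg fun q => hij (Fin.ext (by omega)), mul_zero]
  refine le_of_eq (Complex.ofReal_injective ?_)
  rw [Complex.ofReal_mul, ← integral_complex_ofReal]
  simp only [e]
  rw [integral_finsetSum _ fun i _ => integrable_finsetSum _ fun j _ => hi i j,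
    Finset.sum_congr rfl fun i _ => integral_finsetSum _ fun j _ => hi i j]
  simp only [e2, Finset.sum_ite_eq, Finset.mem_univ, if_true]
  rw [← Complex.ofReal_sum, ← Complex.ofReal_mul, ← Finset.sum_div, mul_div_cancel₀ _ hh.ne']

theorem s6_dirichlet (h : ℝ) {m : ℕ} (hm : 0 < m) (y : ℝ) :
    ∑ i : Fin m, ∑ j : Fin m, ec ((h * ((i : ℕ) : ℝ) - h * ((j : ℕ) : ℝ)) * y)
      = ((m * fej m (h * y) : ℝ) : ℂ) := by
  have hm' : (m : ℝ) ≠ 0 := by positivity
  rw [fej, mul_div_cancel₀ _ hm', LT.g4_sq]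
  refine Finset.sum_congr rfl fun i _ => Finset.sum_congr rfl fun j _ => ?_
  congr 1
  push_cast
  ring

theorem s6_inner {h : ℝ} {m : ℕ} (hm : 0 < m) {V : ℝ → ℝ} (hi : Integrable V) (z : ℝ) :
    ∑ i : Fin m, ∑ j : Fin m, ec (-((h * ((i : ℕ) : ℝ) - h * ((j : ℕ) : ℝ)) * z))
        * ((h : ℂ) * ∫ x, (V x : ℂ) * ec ((h * ((i : ℕ) : ℝ) - h * ((j : ℕ) : ℝ)) * x))
      = ((m * ∫ x, V x * (h * fej m (h * (x - z))) : ℝ) : ℂ) := by
  have h1 : ∀ a : ℝ, ec (-(a * z)) * ((h : ℂ) * ∫ x, (V x : ℂ) * ec (a * x))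
      = ∫ x, (h : ℂ) * ((V x : ℂ) * ec (a * (x - z))) := by
    intro a
    rw [← integral_const_mul, ← integral_const_mul]
    refine integral_congr_ae (Filter.Eventually.of_forall fun x => ?_)
    simp only
    rw [mul_sub a x z, sub_eq_add_neg (a * x), LT.ec_add]
    ring
  have h2 : ∀ a : ℝ, Integrable fun x => (h : ℂ) * ((V x : ℂ) * ec (a * (x - z))) := fun a =>
    (s6_integrable_mul hi (by fun_prop) fun x => LT.norm_ec _).const_mul _
  simp only [h1]
  rw [← integral_const_mul, ← integral_complex_ofReal]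
  rw [Finset.sum_congr rfl fun i _ => (integral_finsetSum Finset.univ fun j _ => h2 _).symm,
    ← integral_finsetSum Finset.univ
      fun i _ => integrable_finsetSum Finset.univ fun j _ => h2 _]
  refine integral_congr_ae (Filter.Eventually.of_forall fun x => ?_)
  simp only [← Finset.mul_sum]
  rw [s6_dirichlet h hm (x - z)]
  push_cast
  ring

theorem s6_double {h : ℝ} {m : ℕ} (hm : 0 < m) {V : ℝ → ℝ} (hi : Integrable V) {A : ℝ → ℝ}
    (hA : Integrable A) :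
    ∑ i : Fin m, ∑ j : Fin m,
        (∫ z, (A z : ℂ) * ec (-((h * ((i : ℕ) : ℝ) - h * ((j : ℕ) : ℝ)) * z)))
        * ((h : ℂ) * ∫ x, (V x : ℂ) * ec ((h * ((i : ℕ) : ℝ) - h * ((j : ℕ) : ℝ)) * x))
      = ((m * ∫ z, A z * ∫ x, V x * (h * fej m (h * (x - z))) : ℝ) : ℂ) := by
  have h2 : ∀ a : ℝ, Integrable fun z => (A z : ℂ) * ec (-(a * z))
        * ((h : ℂ) * ∫ x, (V x : ℂ) * ec (a * x)) := fun a =>
    (s6_integrable_mul hA (by fun_prop) fun x => LT.norm_ec _).mul_const _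
  simp only [← integral_mul_const]
  rw [← integral_const_mul, ← integral_complex_ofReal]
  rw [Finset.sum_congr rfl fun i _ => (integral_finsetSum Finset.univ fun j _ => h2 _).symm,
    ← integral_finsetSum Finset.univ
      fun i _ => integrable_finsetSum Finset.univ fun j _ => h2 _]
  refine integral_congr_ae (Filter.Eventually.of_forall fun z => ?_)
  have h3 := s6_inner (h := h) hm hi z
  simp only [mul_assoc (A z : ℂ), ← Finset.mul_sum]
  rw [h3]
  push_cast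
  ring

theorem s6_entry {h : ℝ} (hh : 0 < h) {V : ℝ → ℝ} (hs : ∀ x, 1 / (2 * h) ≤ |x| → V x = 0)
    (a b : ℝ) :
    ∫ x, (V x : ℂ) * (ec (-(b * x)) * conj (ec (-(a * x))))
        ∂(ENNReal.ofReal h • (volume : Measure ℝ).restrict
          (Set.Ioo (-(1 / (2 * h))) (1 / (2 * h))))
      = (h : ℂ) * ∫ x, (V x : ℂ) * ec ((a - b) * x) := by
  rw [integral_smul_measure, ENNReal.toReal_ofReal hh.le,
    setIntegral_eq_integral_of_forall_compl_eq_zero (fun x hx => by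
      rw [s6_out hs x hx, Complex.ofReal_zero, zero_mul]), Complex.real_smul]
  congr 1
  refine integral_congr_ae (Filter.Eventually.of_forall fun x => ?_)
  simp only
  rw [← LT.ec_neg, neg_neg, ← LT.ec_add]
  congr 2
  ring

theorem fixed_level {κ : Type} [Fintype κ] {u : κ → L2} (hu : Orthonormal ℂ u)
    (hT : ∀ k, Integrable fun ξ => |ξ| * ‖fn (ft (u k)) ξ‖ ^ 2) {h : ℝ} (hh : 0 < h) {m : ℕ}
    (hm : 0 < m) {V : ℝ → ℝ} (hV : Measurable V) {M : ℝ} (h0 : ∀ x, 0 ≤ V x) (hM : ∀ x, V x ≤ M)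
    (hs : ∀ x, 1 / (2 * h) ≤ |x| → V x = 0) (c : κ → ℝ) (hc : ∀ k, 0 ≤ c k) :
    ∑ k, (2 * c k * ((∫ z, ‖fn (u k) z‖ ^ 2 * ‖ww h z‖ ^ 2 / h ^ 2
        * ∫ x, V x * (h * fej m (h * (x - z)))) - tk (u k) - h) - c k ^ 2)
      ≤ 2 / 3 * ∫ x, V x ^ 3 := by
  have hi : Integrable V := s6_integrable hV h0 hM hs
  have hm' : (0 : ℝ) < m := by positivity
  have : IsFiniteMeasure ((volume : Measure ℝ).restrict
      (Set.Ioo (-(1 / (2 * h))) (1 / (2 * h)))) :=
    isFiniteMeasure_restrict.2 measure_Ioo_lt_top.ne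
  have : IsFiniteMeasure (ENNReal.ofReal h • (volume : Measure ℝ).restrict
      (Set.Ioo (-(1 / (2 * h))) (1 / (2 * h)))) :=
    Measure.smul_finite _ ENNReal.ofReal_ne_top
  obtain ⟨hW, hBL⟩ := berezin_three (ι := Fin m)
    (ENNReal.ofReal h • (volume : Measure ℝ).restrict (Set.Ioo (-(1 / (2 * h))) (1 / (2 * h))))
    (e := fun x i => ec (-(h * ((i : ℕ) : ℝ) * x)))
    (fun i => Continuous.measurable (by fun_prop))
    (fun x i => (LT.norm_ec _).le)
    (fun c => by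
      rw [integral_smul_measure, ENNReal.toReal_ofReal hh.le, smul_eq_mul]
      exact s6_frame hh c) hV h0 hM
  have hF := finite_level hu hT hh hW c hc
  have hA : ∀ k, Integrable fun z => ‖fn (u k) z‖ ^ 2 * ‖ww h z‖ ^ 2 := fun k =>
    (fn_sq (u k)).1.mul_bdd (c := h ^ 2)
      ((continuous_ww h).norm.pow 2).aestronglyMeasurable
      (Filter.Eventually.of_forall fun z => by
        rw [Real.norm_eq_abs, abs_of_nonneg (by positivity)]
        exact pow_le_pow_left₀ (norm_nonneg _) (norm_ww_le hh z) 2)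
  rw [integral_smul_measure, ENNReal.toReal_ofReal hh.le, smul_eq_mul,
    setIntegral_eq_integral_of_forall_compl_eq_zero (fun x hx => by
      rw [s6_out hs x hx, zero_pow three_ne_zero]), Fintype.card_fin] at hBL
  simp only [Matrix.of_apply, s6_entry hh hs] at hF hBL
  simp only [s6_double hm hi (hA _), Complex.ofReal_re] at hF
  have heq : ∀ k, (∫ z, ‖fn (u k) z‖ ^ 2 * ‖ww h z‖ ^ 2 / h ^ 2
        * ∫ x, V x * (h * fej m (h * (x - z)))) = (h ^ 2)⁻¹ *
      ∫ z, ‖fn (u k) z‖ ^ 2 * ‖ww h z‖ ^ 2 * ∫ x, V x * (h * fej m (h * (x - z))) := by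
    intro k
    rw [← integral_const_mul]
    refine integral_congr_ae (Filter.Eventually.of_forall fun z => ?_)
    simp only
    ring
  simp only [heq]
  refine le_of_mul_le_mul_left ?_ (mul_pos hm' (pow_pos hh 2))
  rw [Finset.mul_sum]
  refine le_trans (le_of_eq (Finset.sum_congr rfl fun k _ => ?_)) (hF.trans ?_)
  · field_simp
    ring
  · have := mul_le_mul_of_nonneg_left hBL hh.le
    linarith

end Pool.Agent.P.MP_9f4f5e_mp.LT1
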