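import Pool.Agent.P.MP_9f4f5e_mp.LT.G4
import Pool.Agent.P.MP_9f4f5e_mp.LT1.Defs

set_option linter.unusedSectionVars false

open MeasureTheory Matrix
open scoped ENNReal ComplexOrder ComplexConjugate FourierTransform
open Pool.Agent.P.MP_9f4f5e_mp.LT (tp dg qf ec fej)

noncomputable section

namespace Pool.Agent.P.MP_9f4f5e_mp.LT1

theorem s7_cont {V : ℝ → ℝ} (hV : Measurable V) {M : ℝ} (hM : ∀ x, |V x| ≤ M) :
    Continuous fun f : Lp ℝ 1 (volume : Measure ℝ) => ∫ z, f z * V z := by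
  have hM0 : 0 ≤ M := (abs_nonneg _).trans (hM 0)
  have hI : ∀ f : Lp ℝ 1 (volume : Measure ℝ), Integrable fun z => f z * V z := fun f =>
    (L1.integrable_coeFn f).mul_bdd hV.aestronglyMeasurable (Filter.Eventually.of_forall hM)
  refine (LipschitzWith.of_dist_le_mul (K := NNReal.mk M hM0) fun f g => ?_).continuous
  have hd : Integrable fun z => dist (f z) (g z) := by
    simp only [dist_eq_norm]
    exact ((L1.integrable_coeFn f).sub (L1.integrable_coeFn g)).norm
  rw [L1.dist_eq_integral_dist, dist_eq_norm, ← integral_sub (hI f) (hI g), NNReal.coe_mk,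
    ← integral_const_mul]
  refine norm_integral_le_of_norm_le (hd.const_mul M) (Filter.Eventually.of_forall fun z => ?_)
  rw [← sub_mul, norm_mul, dist_eq_norm, mul_comm]
  exact mul_le_mul_of_nonneg_right (hM z) (norm_nonneg _)

theorem continuous_pair {A V : ℝ → ℝ} (hA : Integrable A) (hV : Measurable V) {M : ℝ}
    (hM : ∀ x, |V x| ≤ M) : Continuous fun y => ∫ z, A z * V (z + y) := by
  let g : ℝ → C(ℝ, ℝ) := fun y => ⟨fun z => z - y, by fun_prop⟩
  have hg : Continuous g := ContinuousMap.continuous_of_continuous_uncurry _ (by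
    show Continuous fun p : ℝ × ℝ => p.2 - p.1
    fun_prop)
  have hgm : ∀ y, MeasurePreserving (g y) volume volume := fun y =>
    measurePreserving_sub_right volume y
  have hc := (s7_cont hV hM).comp (Continuous.compMeasurePreservingLp
    (f := fun _ : ℝ => hA.toL1 A) continuous_const hg hgm ENNReal.one_ne_top)
  refine hc.congr fun y => ?_
  have h1 := Lp.coeFn_compMeasurePreserving (hA.toL1 A) (hgm y)
  have h2 := (hgm y).quasiMeasurePreserving.ae_eq_comp hA.coeFn_toL1
  calc _ = ∫ z, A (z - y) * V z := by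
        refine integral_congr_ae ?_
        filter_upwards [h1, h2] with z e1 e2
        rw [e1, e2]
        rfl
    _ = ∫ z, A z * V (z + y) := by
        rw [← integral_add_right_eq_self (fun z => A (z - y) * V z) y]
        simp only [add_sub_cancel_right]

theorem s7_mass (m : ℕ) {h δ : ℝ} (hh : 0 < h) (hδ : 0 < δ) :
    ∫ s in Set.Ioo (-δ) δ, h * fej m (h * s) = ∫ s in Set.Ioo (-(h * δ)) (h * δ), fej m s := by
  have hδ2 : 0 < h * δ := mul_pos hh hδ
  rw [← integral_Ioc_eq_integral_Ioo, ← integral_Ioc_eq_integral_Ioo,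
    ← intervalIntegral.integral_of_le (by linarith),
    ← intervalIntegral.integral_of_le (by linarith), intervalIntegral.integral_const_mul,
    intervalIntegral.mul_integral_comp_mul_left, mul_neg]

theorem s7_lower {A V : ℝ → ℝ} (hA : Integrable A) (hA0 : ∀ z, 0 ≤ A z)
    (hi : Integrable V) (h0 : ∀ x, 0 ≤ V x) {h : ℝ} (hh : 0 < h) (m : ℕ) {δ c : ℝ} (hδ : 0 < δ)
    (hc : ∀ y ∈ Set.Ioo (-δ) δ, c ≤ ∫ z, A z * V (z + y)) :
    c * ∫ s in Set.Ioo (-(h * δ)) (h * δ), fej m s
      ≤ ∫ z, A z * ∫ x, V x * (h * fej m (h * (x - z))) := by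
  have hK0 : ∀ y, 0 ≤ h * fej m (h * y) := fun y => mul_nonneg hh.le (LT.fej_nonneg _ _)
  have hKc : Continuous fun y => h * fej m (h * y) :=
    continuous_const.mul ((LT.continuous_fej m).comp (continuous_const.mul continuous_id))
  have hKb : ∀ y, ‖h * fej m (h * y)‖ ≤ h * m := fun y => by
    rw [Real.norm_of_nonneg (hK0 y)]
    exact mul_le_mul_of_nonneg_left (LT.fej_le _ _) hh.le
  have hG0 : Integrable (fun p : ℝ × ℝ => A p.1 * V (p.1 + p.2)) (volume.prod volume) :=
    (measurePreserving_prod_add volume volume).integrable_comp_of_integrable (hA.mul_prod hi)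
  have hG : Integrable (fun p : ℝ × ℝ => A p.1 * V (p.1 + p.2) * (h * fej m (h * p.2)))
      (volume.prod volume) :=
    hG0.mul_bdd (hKc.comp continuous_snd).aestronglyMeasurable
      (Filter.Eventually.of_forall fun p => hKb p.2)
  have e1 : ∀ z, A z * ∫ x, V x * (h * fej m (h * (x - z)))
      = ∫ y, A z * V (z + y) * (h * fej m (h * y)) := fun z => by
    rw [← integral_add_left_eq_self (fun x => V x * (h * fej m (h * (x - z)))) z,
      ← integral_const_mul]
    simp only [add_sub_cancel_left, mul_assoc]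
  have e2 : ∫ z, ∫ y, A z * V (z + y) * (h * fej m (h * y))
      = ∫ y, ∫ z, A z * V (z + y) * (h * fej m (h * y)) := integral_integral_swap hG
  have hI : Integrable fun y => ∫ z, A z * V (z + y) * (h * fej m (h * y)) :=
    hG.integral_prod_right
  simp_rw [e1]
  rw [e2, ← s7_mass m hh hδ, ← integral_const_mul]
  refine le_trans (setIntegral_mono_on ((LT.g4_int hKc _ _).const_mul c) hI.integrableOn
    measurableSet_Ioo fun y hy => ?_)
    (setIntegral_le_integral hI (Filter.Eventually.of_forall fun y => ?_))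
  · rw [integral_mul_const]
    exact mul_le_mul_of_nonneg_right (hc y hy) (hK0 y)
  · exact integral_nonneg fun z => mul_nonneg (mul_nonneg (hA0 z) (h0 _)) (hK0 y)

theorem fej_limit {A V : ℝ → ℝ} (hA : Integrable A) (hA0 : ∀ z, 0 ≤ A z) (hV : Measurable V)
    (hi : Integrable V) {M : ℝ} (h0 : ∀ x, 0 ≤ V x) (hM : ∀ x, V x ≤ M) {h : ℝ} (hh : 0 < h)
    {η : ℝ} (hη : 0 < η) :
    ∀ᶠ m : ℕ in Filter.atTop,
      (∫ z, A z * V z) - η ≤ ∫ z, A z * ∫ x, V x * (h * fej m (h * (x - z))) := by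
  have hF := continuous_pair hA hV (M := M) fun x => by rw [abs_of_nonneg (h0 x)]; exact hM x
  obtain ⟨c, hc⟩ : ∃ c, c = (∫ z, A z * V z) - η / 2 := ⟨_, rfl⟩
  rcases lt_or_ge c 0 with hc0 | hc0
  · refine Filter.Eventually.of_forall fun m => ?_
    have : 0 ≤ ∫ z, A z * ∫ x, V x * (h * fej m (h * (x - z))) :=
      integral_nonneg fun z => mul_nonneg (hA0 z) (integral_nonneg fun x =>
        mul_nonneg (h0 x) (mul_nonneg hh.le (LT.fej_nonneg _ _)))
    linarith
  have hlt : c < (fun y => ∫ z, A z * V (z + y)) 0 := by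
    simp only [add_zero]
    linarith
  obtain ⟨ε, hε, hball⟩ := Metric.eventually_nhds_iff.1
    (hF.continuousAt.eventually (lt_mem_nhds hlt))
  obtain ⟨δ, hδ⟩ : ∃ δ, δ = min ε (1 / (2 * h)) := ⟨_, rfl⟩
  have hδ0 : 0 < δ := hδ ▸ lt_min hε (by positivity)
  have hδ1 : δ ≤ ε := hδ ▸ min_le_left _ _
  have hδ2 : h * δ ≤ 1 / 2 := by
    have h1 : δ ≤ 1 / (2 * h) := hδ ▸ min_le_right _ _
    calc h * δ ≤ h * (1 / (2 * h)) := mul_le_mul_of_nonneg_left h1 hh.le
      _ = 1 / 2 := by field_simp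
  have hhδ : 0 < h * δ := mul_pos hh hδ0
  have hy : ∀ y ∈ Set.Ioo (-δ) δ, c ≤ ∫ z, A z * V (z + y) := fun y hy => by
    refine (hball ?_).le
    rw [Real.dist_eq, sub_zero, abs_lt]
    exact ⟨by linarith [hy.1], by linarith [hy.2]⟩
  have ht : Filter.Tendsto (fun m : ℕ => c * (1 - 1 / (4 * (m : ℝ) * (h * δ) ^ 2)))
      Filter.atTop (nhds c) := by
    have h1 : Filter.Tendsto (fun m : ℕ => c * (1 - (1 / (4 * (h * δ) ^ 2)) * (m : ℝ)⁻¹))
        Filter.atTop (nhds (c * (1 - (1 / (4 * (h * δ) ^ 2)) * 0))) :=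
      ((tendsto_inv_atTop_nhds_zero_nat.const_mul _).const_sub _).const_mul _
    rw [mul_zero, sub_zero, mul_one] at h1
    refine h1.congr fun m => ?_
    congr 2
    rw [one_div, one_div, ← mul_inv]
    congr 1
    ring
  have hlt2 : (∫ z, A z * V z) - η < c := by linarith
  filter_upwards [ht.eventually (lt_mem_nhds hlt2), Filter.eventually_gt_atTop 0] with m hm1 hm2
  refine hm1.le.trans (le_trans ?_ (s7_lower hA hA0 hi h0 hh m hδ0 hy))
  exact mul_le_mul_of_nonneg_left (LT.fej_mass hm2 hhδ hδ2) hc0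

end Pool.Agent.P.MP_9f4f5e_mp.LT1
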