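import Pool.Agent.P.MP_9f4f5e_mp.LT1.S6
import Pool.Agent.P.MP_9f4f5e_mp.LT1.S7

set_option linter.unusedSectionVars false

open MeasureTheory Matrix
open scoped ENNReal ComplexOrder ComplexConjugate FourierTransform
open Pool.Agent.P.MP_9f4f5e_mp.LT (tp dg qf ec fej)

noncomputable section

namespace Pool.Agent.P.MP_9f4f5e_mp.LT1

theorem s8_ec (r : ℝ) : ‖ec r - 1‖ ≤ 2 * Real.pi * |r| := by
  have := Real.norm_exp_I_mul_ofReal_sub_one_le (x := 2 * Real.pi * r)
  rw [LT.ec_eq, mul_comm _ Complex.I]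
  refine this.trans (le_of_eq ?_)
  rw [Real.norm_eq_abs, abs_mul, abs_of_pos Real.two_pi_pos]

theorem s8_le_norm_ww {h : ℝ} (hh : 0 < h) (z : ℝ) :
    h * (1 - 2 * Real.pi * h * |z|) ≤ ‖ww h z‖ := by
  have hlt : (volume : Measure ℝ) (Set.Ico 0 h) < ⊤ := measure_Ico_lt_top
  have hre : (volume : Measure ℝ).real (Set.Ico 0 h) = h := by
    rw [Real.volume_real_Ico_of_le hh.le, sub_zero]
  have b := norm_setIntegral_le_of_norm_le_const (f := fun s : ℝ => ec (-(s * z)) - 1)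
    (C := 2 * Real.pi * h * |z|) hlt fun s hs => by
      refine (s8_ec _).trans ?_
      have h1 : |s * z| ≤ h * |z| := by
        rw [abs_mul, abs_of_nonneg hs.1]
        exact mul_le_mul_of_nonneg_right hs.2.le (abs_nonneg _)
      rw [abs_neg]
      nlinarith [Real.pi_pos]
  have i1 : IntegrableOn (fun _ : ℝ => (1 : ℂ)) (Set.Ico 0 h) := integrableOn_const hlt.ne
  have c : Continuous fun s : ℝ => ec (-(s * z)) := by fun_prop
  have i2 : IntegrableOn (fun s : ℝ => ec (-(s * z))) (Set.Ico 0 h) :=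
    Measure.integrableOn_of_bounded hlt.ne c.aestronglyMeasurable (M := 1)
      (Filter.Eventually.of_forall fun s => (LT.norm_ec _).le)
  rw [integral_sub i2 i1, setIntegral_const, hre] at b
  have t := norm_sub_norm_le ((h : ℝ) • (1 : ℂ)) (ww h z)
  rw [norm_sub_rev, norm_smul, norm_one, Real.norm_of_nonneg hh.le] at t
  rw [← ww] at b
  linarith

theorem s8_ratio {v : ℕ → ℝ} (hv : ∀ j, 0 < v j)
    (hv0 : Filter.Tendsto v Filter.atTop (nhds 0)) (z : ℝ) :
    Filter.Tendsto (fun j => ‖ww (v j) z‖ ^ 2 / v j ^ 2) Filter.atTop (nhds 1) := by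
  have h1 : Filter.Tendsto (fun j => ‖ww (v j) z‖ / v j) Filter.atTop (nhds 1) := by
    have hlow : Filter.Tendsto (fun j => 1 - 2 * Real.pi * v j * |z|) Filter.atTop (nhds 1) := by
      have := ((hv0.const_mul (2 * Real.pi)).mul_const |z|).const_sub 1
      simpa using this
    refine tendsto_of_tendsto_of_tendsto_of_le_of_le hlow tendsto_const_nhds (fun j => ?_)
      (fun j => ?_)
    · have := s8_le_norm_ww (hv j) z
      show 1 - 2 * Real.pi * v j * |z| ≤ ‖ww (v j) z‖ / v j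
      rw [le_div_iff₀ (hv j)]
      linarith
    · show ‖ww (v j) z‖ / v j ≤ 1
      rw [div_le_one (hv j)]
      exact norm_ww_le (hv j) z
  have h2 := h1.pow 2
  rw [one_pow] at h2
  refine h2.congr fun j => ?_
  rw [div_pow]

theorem s8_ratio_le {h : ℝ} (hh : 0 < h) (z : ℝ) : ‖ww h z‖ ^ 2 / h ^ 2 ≤ 1 := by
  rw [div_le_one (by positivity)]
  exact pow_le_pow_left₀ (norm_nonneg _) (norm_ww_le hh z) 2

theorem s8_int (u : L2) {h : ℝ} (hh : 0 < h) :
    Integrable fun z => ‖fn u z‖ ^ 2 * ‖ww h z‖ ^ 2 / h ^ 2 := by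
  have h1 := (fn_sq u).1.mul_bdd (c := 1) (g := fun z => ‖ww h z‖ ^ 2 / h ^ 2)
    (((continuous_ww h).norm.pow 2).div_const _).aestronglyMeasurable
    (Filter.Eventually.of_forall fun z => by
      rw [Real.norm_of_nonneg (by positivity)]; exact s8_ratio_le hh z)
  simpa only [mul_div_assoc] using h1

theorem s8_integrable {V : ℝ → ℝ} (hV : Measurable V) {M r : ℝ}
    (h0 : ∀ x, 0 ≤ V x) (hM : ∀ x, V x ≤ M) (hs : ∀ x, r ≤ |x| → V x = 0) : Integrable V := by
  have h1 : IntegrableOn V (Metric.ball (0 : ℝ) r) := by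
    refine Measure.integrableOn_of_bounded (M := M) measure_ball_lt_top.ne
      hV.aestronglyMeasurable ?_
    refine Filter.Eventually.of_forall fun x => ?_
    rw [Real.norm_eq_abs, abs_of_nonneg (h0 x)]
    exact hM x
  refine h1.integrable_of_forall_notMem_eq_zero fun x hx => hs x ?_
  simpa using hx

theorem s8_level {κ : Type} [Fintype κ] {u : κ → L2} (hu : Orthonormal ℂ u)
    (hT : ∀ k, Integrable fun ξ => |ξ| * ‖fn (ft (u k)) ξ‖ ^ 2) {h : ℝ} (hh : 0 < h)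
    {V : ℝ → ℝ} (hV : Measurable V) (hi : Integrable V) {M : ℝ} (h0 : ∀ x, 0 ≤ V x)
    (hM : ∀ x, V x ≤ M) (hs : ∀ x, 1 / (2 * h) ≤ |x| → V x = 0) (c : κ → ℝ) (hc : ∀ k, 0 ≤ c k) :
    ∑ k, (2 * c k * ((∫ z, ‖fn (u k) z‖ ^ 2 * ‖ww h z‖ ^ 2 / h ^ 2 * V z) - tk (u k) - h)
      - c k ^ 2) ≤ 2 / 3 * ∫ x, V x ^ 3 := by
  have key : ∀ η : ℝ, 0 < η →
      ∑ k, (2 * c k * ((∫ z, ‖fn (u k) z‖ ^ 2 * ‖ww h z‖ ^ 2 / h ^ 2 * V z) - η - tk (u k) - h)
        - c k ^ 2) ≤ 2 / 3 * ∫ x, V x ^ 3 := by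
    intro η hη
    have h1 := Filter.eventually_all.2 fun k =>
      fej_limit (s8_int (u k) hh) (fun z => by positivity) hV hi h0 hM hh hη
    obtain ⟨m, hm1, hm⟩ := (h1.and (Filter.eventually_gt_atTop 0)).exists
    refine le_trans (Finset.sum_le_sum fun k _ => ?_) (fixed_level hu hT hh hm hV h0 hM hs c hc)
    have := mul_le_mul_of_nonneg_left (hm1 k) (hc k)
    linarith
  have hl : Filter.Tendsto (fun η : ℝ =>
      ∑ k, (2 * c k * ((∫ z, ‖fn (u k) z‖ ^ 2 * ‖ww h z‖ ^ 2 / h ^ 2 * V z) - η - tk (u k) - h)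
        - c k ^ 2)) (nhdsWithin 0 (Set.Ioi 0))
      (nhds (∑ k, (2 * c k * ((∫ z, ‖fn (u k) z‖ ^ 2 * ‖ww h z‖ ^ 2 / h ^ 2 * V z) - 0
        - tk (u k) - h) - c k ^ 2))) :=
    Filter.Tendsto.mono_left (Continuous.tendsto (by fun_prop) 0) nhdsWithin_le_nhds
  have := le_of_tendsto hl (eventually_mem_nhdsWithin.mono key)
  simpa only [sub_zero] using this

theorem bounded_level {κ : Type} [Fintype κ] {u : κ → L2} (hu : Orthonormal ℂ u)
    (hT : ∀ k, Integrable fun ξ => |ξ| * ‖fn (ft (u k)) ξ‖ ^ 2)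
    {V : ℝ → ℝ} (hV : Measurable V) {M r : ℝ} (h0 : ∀ x, 0 ≤ V x) (hM : ∀ x, V x ≤ M)
    (hs : ∀ x, r ≤ |x| → V x = 0) (c : κ → ℝ) (hc : ∀ k, 0 ≤ c k) :
    ∑ k, (2 * c k * ((∫ z, ‖fn (u k) z‖ ^ 2 * V z) - tk (u k)) - c k ^ 2)
      ≤ 2 / 3 * ∫ x, V x ^ 3 := by
  have hi := s8_integrable hV h0 hM hs
  have hr : 0 < |r| + 1 := by positivity
  set v : ℕ → ℝ := fun j => (2 * (|r| + 1))⁻¹ * (1 / ((j : ℝ) + 1)) with hv
  have hpos : ∀ j, 0 < v j := fun j => by
    simp only [hv]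
    positivity
  have hv0 : Filter.Tendsto v Filter.atTop (nhds 0) := by
    have := (tendsto_one_div_add_atTop_nhds_zero_nat (𝕜 := ℝ)).const_mul (2 * (|r| + 1))⁻¹
    simpa [hv] using this
  have hvr : ∀ j, r ≤ 1 / (2 * v j) := fun j => by
    have h1 : 1 / (2 * v j) = (|r| + 1) * ((j : ℝ) + 1) := by
      simp only [hv]
      field_simp
    have h2 : (0 : ℝ) ≤ j := Nat.cast_nonneg j
    have h3 := le_abs_self r
    rw [h1]
    nlinarith
  have hlim : ∀ k, Filter.Tendsto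
      (fun j => ∫ z, ‖fn (u k) z‖ ^ 2 * ‖ww (v j) z‖ ^ 2 / v j ^ 2 * V z) Filter.atTop
      (nhds (∫ z, ‖fn (u k) z‖ ^ 2 * V z)) := by
    intro k
    refine tendsto_integral_of_dominated_convergence (fun z => ‖fn (u k) z‖ ^ 2 * M)
      (fun j => (s8_int (u k) (hpos j)).1.mul hV.aestronglyMeasurable)
      ((fn_sq (u k)).1.mul_const M) (fun j => Filter.Eventually.of_forall fun z => ?_)
      (Filter.Eventually.of_forall fun z => ?_)
    · have h1 := s8_ratio_le (hpos j) z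
      have h2 := h0 z
      have h3 := hpos j
      rw [Real.norm_of_nonneg (by positivity), mul_div_assoc, mul_assoc]
      refine mul_le_mul_of_nonneg_left ?_ (by positivity)
      exact (mul_le_of_le_one_left h2 h1).trans (hM z)
    · have h1 := ((s8_ratio hpos hv0 z).const_mul (‖fn (u k) z‖ ^ 2)).mul_const (V z)
      rw [mul_one] at h1
      simpa only [mul_div_assoc] using h1
  have hl := tendsto_finsetSum Finset.univ fun k _ =>
    ((((hlim k).sub_const (tk (u k))).sub hv0).const_mul (2 * c k)).sub_const (c k ^ 2)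
  have := le_of_tendsto' hl fun j =>
    s8_level hu hT (hpos j) hV hi h0 hM (fun x hx => hs x ((hvr j).trans hx)) c hc
  simpa only [sub_zero] using this

end Pool.Agent.P.MP_9f4f5e_mp.LT1
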