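import Pool.Agent.P.MP_9f4f5e_mp.LT1.S8

set_option linter.unusedSectionVars false

open MeasureTheory Matrix
open scoped ENNReal ComplexOrder ComplexConjugate FourierTransform
open Pool.Agent.P.MP_9f4f5e_mp.LT (tp dg qf ec fej)

noncomputable section

namespace Pool.Agent.P.MP_9f4f5e_mp.LT1

theorem s9_meas (u : L2) : Measurable (fn u) := (Lp.stronglyMeasurable u).measurable

theorem s9_ofReal (a : ℝ) (z : ℂ) (ha : 0 ≤ a) :
    ENNReal.ofReal a * ‖z‖ₑ ^ 2 = ENNReal.ofReal (a * ‖z‖ ^ 2) := by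
  rw [ENNReal.ofReal_mul ha, ENNReal.ofReal_pow (norm_nonneg _), ofReal_norm]

theorem s9_kin_eq (u : L2) :
    kin u = ∫⁻ ξ, ENNReal.ofReal (2 * Real.pi * (|ξ| * ‖fn (ft u) ξ‖ ^ 2)) := by
  unfold kin
  refine lintegral_congr fun ξ => ?_
  rw [s9_ofReal _ _ (by positivity), mul_assoc]

theorem s9_kin_int {u : L2} (h : kin u ≠ ∞) :
    Integrable fun ξ => |ξ| * ‖fn (ft u) ξ‖ ^ 2 := by
  have hm : Measurable fun ξ : ℝ => 2 * Real.pi * (|ξ| * ‖fn (ft u) ξ‖ ^ 2) :=
    measurable_const.mul (measurable_abs.mul ((s9_meas _).norm.pow_const 2))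
  rw [s9_kin_eq] at h
  have h1 : Integrable fun ξ : ℝ => 2 * Real.pi * (|ξ| * ‖fn (ft u) ξ‖ ^ 2) :=
    (lintegral_ofReal_ne_top_iff_integrable hm.aestronglyMeasurable
      (Filter.Eventually.of_forall fun ξ => by positivity)).1 h
  have h2 := h1.const_mul (2 * Real.pi)⁻¹
  refine h2.congr (Filter.Eventually.of_forall fun ξ => ?_)
  have : (2 * Real.pi) ≠ 0 := by positivity
  simp only
  rw [← mul_assoc, inv_mul_cancel₀ this, one_mul]

theorem s9_kin_val {u : L2} (h : kin u ≠ ∞) : kin u = ENNReal.ofReal (2 * Real.pi * tk u) := by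
  rw [s9_kin_eq, tk, ← integral_const_mul]
  exact (ofReal_integral_eq_lintegral_ofReal ((s9_kin_int h).const_mul _)
    (Filter.Eventually.of_forall fun ξ => by positivity)).symm

theorem s9_pot_val (u : L2) {V : ℝ → ℝ} (hV : Measurable V) {M : ℝ} (h0 : ∀ x, 0 ≤ V x)
    (hM : ∀ x, V x ≤ M) : pot V u = ENNReal.ofReal (∫ z, ‖fn u z‖ ^ 2 * V z) := by
  have hi : Integrable fun z => ‖fn u z‖ ^ 2 * V z :=
    (fn_sq u).1.mul_bdd hV.aestronglyMeasurable (c := M) (Filter.Eventually.of_forall fun x => by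
      rw [Real.norm_eq_abs, abs_of_nonneg (h0 x)]; exact hM x)
  rw [ofReal_integral_eq_lintegral_ofReal hi
    (Filter.Eventually.of_forall fun x => mul_nonneg (by positivity) (h0 x))]
  unfold pot
  refine lintegral_congr fun x => ?_
  rw [s9_ofReal _ _ (h0 x), mul_comm]

theorem s9_cube_int {V : ℝ → ℝ} (hV : Measurable V) {M r : ℝ} (h0 : ∀ x, 0 ≤ V x)
    (hM : ∀ x, V x ≤ M) (hs : ∀ x, r ≤ |x| → V x = 0) : Integrable fun x => V x ^ 3 := by
  have h1 : Integrable ((Set.Ioo (-r) r).indicator fun _ : ℝ => M ^ 3) :=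
    (integrable_indicator_iff measurableSet_Ioo).2 (integrableOn_const (by simp))
  refine h1.mono' (hV.pow_const 3).aestronglyMeasurable (Filter.Eventually.of_forall fun x => ?_)
  rw [Real.norm_eq_abs, abs_of_nonneg (pow_nonneg (h0 x) 3)]
  by_cases hx : x ∈ Set.Ioo (-r) r
  · rw [Set.indicator_of_mem hx]
    exact pow_le_pow_left₀ (h0 x) (hM x) 3
  · rw [Set.indicator_of_notMem hx, hs x (not_lt.1 fun h => hx (abs_lt.1 h))]
    simp

theorem s9_bounded {κ : Type} [Fintype κ] {u : κ → L2} (hu : Orthonormal ℂ u)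
    {V : ℝ → ℝ} (hV : Measurable V) {M r : ℝ} (h0 : ∀ x, 0 ≤ V x) (hM : ∀ x, V x ≤ M)
    (hs : ∀ x, r ≤ |x| → V x = 0) :
    ∑ k, (pot V (u k) - kin (u k)) ^ 2
      ≤ ENNReal.ofReal (1 / (3 * Real.pi)) * ∫⁻ x, ENNReal.ofReal (V x) ^ 3 := by
  classical
  have hp : 0 < 2 * Real.pi := by positivity
  let κ' := {k // kin (u k) ≠ ∞}
  let c : κ' → ℝ := fun k =>
    max ((∫ z, ‖fn (u k.1) z‖ ^ 2 * (V z / (2 * Real.pi))) - tk (u k.1)) 0
  have key := bounded_level (κ := κ') (u := fun k => u k.1) (hu.comp _ Subtype.val_injective)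
    (fun k => s9_kin_int k.2) (V := fun x => V x / (2 * Real.pi)) (hV.div_const _)
    (M := M / (2 * Real.pi)) (r := r) (fun x => div_nonneg (h0 x) hp.le)
    (fun x => div_le_div_of_nonneg_right (hM x) hp.le) (fun x hx => by rw [hs x hx, zero_div])
    c (fun k => le_max_right _ _)
  have e1 : ∀ k : κ', 2 * c k * ((∫ z, ‖fn (u k.1) z‖ ^ 2 * (V z / (2 * Real.pi))) - tk (u k.1))
      - c k ^ 2 = c k ^ 2 := by
    intro k
    rcases le_total ((∫ z, ‖fn (u k.1) z‖ ^ 2 * (V z / (2 * Real.pi))) - tk (u k.1)) 0 with h | h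
    · have : c k = 0 := max_eq_right h
      rw [this]; ring
    · have : c k = _ := max_eq_left h
      rw [← this]; ring
  simp only [e1] at key
  have e2 : ∀ k : κ', (pot V (u k.1) - kin (u k.1)) ^ 2
      = ENNReal.ofReal ((2 * Real.pi) ^ 2 * c k ^ 2) := by
    intro k
    have htk : 0 ≤ tk (u k.1) := integral_nonneg fun ξ => by positivity
    rw [s9_pot_val _ hV h0 hM, s9_kin_val k.2, ← ENNReal.ofReal_sub _ (mul_nonneg hp.le htk),
      ← mul_pow, ENNReal.ofReal_pow (mul_nonneg hp.le (le_max_right _ _))]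
    congr 1
    have e3 : (∫ z, ‖fn (u k.1) z‖ ^ 2 * (V z / (2 * Real.pi)))
        = (∫ z, ‖fn (u k.1) z‖ ^ 2 * V z) / (2 * Real.pi) := by
      rw [← integral_div]
      exact integral_congr_ae (Filter.Eventually.of_forall fun z => by
        simp only [mul_div_assoc])
    have e4 : 2 * Real.pi * c k
        = max ((∫ z, ‖fn (u k.1) z‖ ^ 2 * V z) - 2 * Real.pi * tk (u k.1)) 0 := by
      simp only [c]
      rw [mul_max_of_nonneg _ _ hp.le, mul_zero, e3, mul_sub, mul_div_cancel₀ _ hp.ne']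
    rw [e4, ENNReal.ofReal_max, ENNReal.ofReal_zero, max_eq_left (zero_le)]
  have e5 : ∑ k, (pot V (u k) - kin (u k)) ^ 2 = ∑ k : κ', (pot V (u k.1) - kin (u k.1)) ^ 2 := by
    rw [← Finset.sum_subtype (Finset.univ.filter fun k => kin (u k) ≠ ∞) (by simp)
      (fun k => (pot V (u k) - kin (u k)) ^ 2)]
    refine (Finset.sum_subset (Finset.filter_subset _ _) fun k _ hk => ?_).symm
    have : kin (u k) = ∞ := by simpa using hk
    rw [this]
    simp
  have e6 : ∫⁻ x, ENNReal.ofReal (V x) ^ 3 = ENNReal.ofReal (∫ x, V x ^ 3) := by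
    rw [ofReal_integral_eq_lintegral_ofReal (s9_cube_int hV h0 hM hs)
      (Filter.Eventually.of_forall fun x => pow_nonneg (h0 x) 3)]
    exact lintegral_congr fun x => (ENNReal.ofReal_pow (h0 x) 3).symm
  rw [e5, e6, ← ENNReal.ofReal_mul (by positivity)]
  simp only [e2]
  rw [← ENNReal.ofReal_sum_of_nonneg fun k _ => by positivity]
  refine ENNReal.ofReal_le_ofReal ?_
  rw [← Finset.mul_sum]
  have e7 : ∫ x, (V x / (2 * Real.pi)) ^ 3 = (∫ x, V x ^ 3) / (2 * Real.pi) ^ 3 := by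
    rw [← integral_div]
    exact integral_congr_ae (Filter.Eventually.of_forall fun z => by simp only [div_pow])
  rw [e7] at key
  refine (mul_le_mul_of_nonneg_left key (by positivity)).trans (le_of_eq ?_)
  have := Real.pi_pos
  field_simp

/-- truncation -/
def s9_tr (V : ℝ → ℝ) (n : ℕ) (x : ℝ) : ℝ := if |x| < n then min (max (V x) 0) n else 0

theorem s9_tr_meas {V : ℝ → ℝ} (hV : Measurable V) (n : ℕ) : Measurable (s9_tr V n) :=
  Measurable.ite (measurableSet_lt measurable_abs measurable_const)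
    ((hV.max measurable_const).min measurable_const) measurable_const

theorem s9_tr_nonneg (V : ℝ → ℝ) (n : ℕ) (x : ℝ) : 0 ≤ s9_tr V n x := by
  unfold s9_tr
  split_ifs
  · exact le_min (le_max_right _ _) (Nat.cast_nonneg n)
  · exact le_rfl

theorem s9_tr_le (V : ℝ → ℝ) (n : ℕ) (x : ℝ) : s9_tr V n x ≤ n := by
  unfold s9_tr
  split_ifs
  · exact min_le_right _ _
  · exact Nat.cast_nonneg n

theorem s9_tr_le' (V : ℝ → ℝ) (n : ℕ) (x : ℝ) :
    ENNReal.ofReal (s9_tr V n x) ≤ ENNReal.ofReal (V x) := by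
  unfold s9_tr
  split_ifs
  · refine (ENNReal.ofReal_le_ofReal (min_le_left _ _)).trans ?_
    rw [ENNReal.ofReal_max, ENNReal.ofReal_zero, max_eq_left (zero_le)]
  · simp

theorem s9_tr_mono (V : ℝ → ℝ) (x : ℝ) : Monotone fun n => s9_tr V n x := by
  intro n m h
  have h' : (n : ℝ) ≤ m := Nat.cast_le.2 h
  by_cases hn : |x| < n
  · simp only [s9_tr, if_pos hn, if_pos (hn.trans_le h')]
    exact min_le_min le_rfl h'
  · have := s9_tr_nonneg V m x
    simpa only [s9_tr, if_neg hn] using this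

theorem s9_tr_ev (V : ℝ → ℝ) (x : ℝ) :
    ∀ᶠ n : ℕ in Filter.atTop, ENNReal.ofReal (s9_tr V n x) = ENNReal.ofReal (V x) := by
  filter_upwards [tendsto_natCast_atTop_atTop (R := ℝ).eventually_gt_atTop |x|,
    tendsto_natCast_atTop_atTop (R := ℝ).eventually_ge_atTop (max (V x) 0)] with n h1 h2
  rw [s9_tr, if_pos h1, min_eq_left h2, ENNReal.ofReal_max, ENNReal.ofReal_zero,
    max_eq_left (zero_le)]

theorem s9_pot_lim {V : ℝ → ℝ} (hV : Measurable V) (u : L2) :
    Filter.Tendsto (fun n => pot (s9_tr V n) u) Filter.atTop (nhds (pot V u)) := by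
  unfold pot
  refine lintegral_tendsto_of_tendsto_of_monotone
    (fun n => ((s9_tr_meas hV n).ennreal_ofReal.mul
      ((s9_meas u).enorm.pow_const 2)).aemeasurable)
    (Filter.Eventually.of_forall fun x n m h =>
      mul_le_mul_left (ENNReal.ofReal_le_ofReal (s9_tr_mono V x h)) _)
    (Filter.Eventually.of_forall fun x => tendsto_const_nhds.congr' ?_)
  filter_upwards [s9_tr_ev V x] with n hn
  rw [hn]

theorem lt_gamma_two {κ : Type} [Fintype κ] {u : κ → L2} (hu : Orthonormal ℂ u)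
    {V : ℝ → ℝ} (hV : Measurable V) :
    ∑ k, (pot V (u k) - kin (u k)) ^ 2
      ≤ ENNReal.ofReal (1 / (3 * Real.pi)) * ∫⁻ x, ENNReal.ofReal (V x) ^ 3 := by
  have h1 : Filter.Tendsto (fun n => ∑ k, (pot (s9_tr V n) (u k) - kin (u k)) ^ 2) Filter.atTop
      (nhds (∑ k, (pot V (u k) - kin (u k)) ^ 2)) := by
    refine tendsto_finsetSum _ fun k _ => ?_
    by_cases h : kin (u k) = ∞
    · simp only [h, ENNReal.sub_top]
      exact tendsto_const_nhds
    · exact ((ENNReal.continuous_pow 2).comp (ENNReal.continuous_sub_right _)).continuousAt.tendsto.comp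
        (s9_pot_lim hV (u k))
  refine le_of_tendsto' h1 fun n => ?_
  refine (s9_bounded hu (s9_tr_meas hV n) (s9_tr_nonneg V n) (s9_tr_le V n) (r := n)
    fun x hx => if_neg (not_lt.2 hx)).trans ?_
  exact mul_le_mul_right (lintegral_mono fun x => pow_le_pow_left' (s9_tr_le' V n x) 3) _

end Pool.Agent.P.MP_9f4f5e_mp.LT1
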