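import Pool.Agent.P.MP_9f4f5e_mp.LT1.Defs

set_option linter.unusedSectionVars false

open MeasureTheory Matrix
open scoped ENNReal ComplexOrder ComplexConjugate FourierTransform
open Pool.Agent.P.MP_9f4f5e_mp.LT (tp dg qf ec fej)

noncomputable section

namespace Pool.Agent.P.MP_9f4f5e_mp.LT1

theorem t1_cont {g : ℝ → ℂ} (h1 : Integrable g) : Continuous fun x : ℝ => ∫ ξ, ec (ξ * x) * g ξ := by
  refine continuous_of_dominated (bound := fun ξ => ‖g ξ‖) (fun x => ?_) (fun x => ?_) h1.norm ?_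
  · exact (Continuous.aestronglyMeasurable (by fun_prop)).mul h1.1
  · exact Filter.Eventually.of_forall fun ξ => by rw [norm_mul, LT.norm_ec, one_mul]
  · exact Filter.Eventually.of_forall fun ξ => by fun_prop

/-- For an integrable and square integrable function the two inverse transforms agree. -/
theorem ft_inv_ae {g : ℝ → ℂ} (h1 : Integrable g) (h2 : MemLp g 2 volume) :
    ∃ u : L2, ft u = h2.toLp g ∧ ∀ᵐ x, fn u x = ∫ ξ, ec (ξ * x) * g ξ := by
  refine ⟨𝓕⁻ (h2.toLp g), FourierTransform.fourier_fourierInv_eq _, ?_⟩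
  refine ae_eq_of_integral_contDiff_smul_eq
    ((Lp.memLp (𝓕⁻ (h2.toLp g) : L2)).locallyIntegrable (by norm_num))
    (t1_cont h1).locallyIntegrable fun φ hφ hs => ?_
  have hφ' : ContDiff ℝ (⊤ : ℕ∞) fun x => (φ x : ℂ) := Complex.ofRealCLM.contDiff.comp hφ
  have hs' : HasCompactSupport fun x => (φ x : ℂ) := hs.comp_left (g := fun r : ℝ => (r : ℂ)) rfl
  set f : SchwartzMap ℝ ℂ := hs'.toSchwartzMap hφ' with hf
  have hfx : ∀ x, f x = (φ x : ℂ) := fun x => rfl
  have hi : Integrable fun x => (φ x : ℂ) := hφ'.continuous.integrable_of_hasCompactSupport hs'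
  have e1 := Lp.inner_fourier_eq (f.toLp 2) (𝓕⁻ (h2.toLp g) : L2)
  rw [FourierTransform.fourier_fourierInv_eq, SchwartzMap.toLp_fourier_eq, L2.inner_def,
    L2.inner_def] at e1
  have e2 : ∫ x, φ x • fn (𝓕⁻ (h2.toLp g)) x
      = ∫ x, inner ℂ ((f.toLp 2 : L2) x) ((𝓕⁻ (h2.toLp g) : L2) x) := by
    refine integral_congr_ae ?_
    filter_upwards [f.coeFn_toLp 2 volume] with x hx
    rw [hx, hfx, RCLike.inner_apply, Complex.conj_ofReal, mul_comm, Complex.real_smul]
    rfl
  have e3 : ∫ ξ, inner ℂ (((𝓕 f).toLp 2 : L2) ξ) ((h2.toLp g : L2) ξ)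
      = ∫ ξ, ∫ x, (φ x : ℂ) * (ec (ξ * x) * g ξ) := by
    refine integral_congr_ae ?_
    filter_upwards [(𝓕 f).coeFn_toLp 2 volume, h2.coeFn_toLp] with ξ a1 a2
    rw [a1, a2, RCLike.inner_apply, SchwartzMap.fourier_coe, Real.fourier_real_eq, ← integral_conj,
      ← integral_const_mul]
    refine integral_congr_ae (Filter.Eventually.of_forall fun x => ?_)
    show g ξ * conj (ec (-(x * ξ)) * f x) = (φ x : ℂ) * (ec (ξ * x) * g ξ)
    rw [map_mul, LT.ec_neg, Complex.conj_conj, hfx, Complex.conj_ofReal, mul_comm x ξ]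
    ring
  rw [e2, ← e1, e3, integral_integral_swap]
  · refine integral_congr_ae (Filter.Eventually.of_forall fun x => ?_)
    simp only
    rw [integral_const_mul, Complex.real_smul]
  · refine (h1.mul_prod hi).norm.mono' ?_ (Filter.Eventually.of_forall fun p => ?_)
    · exact (hi.1.comp_snd).mul ((Continuous.aestronglyMeasurable (by fun_prop)).mul h1.1.comp_fst)
    · simp only [Function.uncurry, norm_mul, LT.norm_ec, one_mul]
      rw [mul_comm]

end Pool.Agent.P.MP_9f4f5e_mp.LT1
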