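import Pool.Agent.P.MP_9f4f5e_mp.LT1.T1
import Pool.Agent.P.MP_9f4f5e_mp.LT1.S2

set_option linter.unusedSectionVars false

open MeasureTheory Matrix Set
open scoped ENNReal ComplexOrder ComplexConjugate FourierTransform
open Pool.Agent.P.MP_9f4f5e_mp.LT (tp dg qf ec fej)

noncomputable section

namespace Pool.Agent.P.MP_9f4f5e_mp.LT1

theorem t2_abs {f : ℝ → ℝ} (hf : IntegrableOn f (Ioi 0)) : Integrable fun x => f |x| := by
  have h1 : IntegrableOn (fun x => f |x|) (Ioi 0) :=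
    hf.congr_fun (fun x hx => by rw [abs_of_pos hx]) measurableSet_Ioi
  have h2 : IntegrableOn (fun x => f |x|) (Iic 0) := by
    rw [integrableOn_Iic_iff_integrableOn_Iio]
    have h3 : IntegrableOn (fun x => f |x|) (Ioi (-0)) := by rwa [neg_zero]
    simpa only [abs_neg] using h3.comp_neg_Iio
  rw [← integrableOn_univ, ← Iic_union_Ioi (a := (0 : ℝ))]
  exact h2.union h1

theorem t2_exp {b : ℝ} (hb : 0 < b) : Integrable (fun x : ℝ => Real.exp (-b * |x|)) ∧
    ∫ x : ℝ, Real.exp (-b * |x|) = 2 / b := by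
  refine ⟨t2_abs (integrableOn_exp_mul_Ioi (neg_lt_zero.2 hb) 0), ?_⟩
  rw [integral_comp_abs (f := fun x => Real.exp (-b * x)),
    integral_exp_mul_Ioi (neg_lt_zero.2 hb)]
  simp [div_eq_mul_inv]

theorem t2_mom {b : ℝ} (hb : 0 < b) : Integrable (fun x : ℝ => |x| * Real.exp (-b * |x|)) ∧
    ∫ x : ℝ, |x| * Real.exp (-b * |x|) = 2 / b ^ 2 := by
  constructor
  · refine t2_abs (f := fun x => x * Real.exp (-b * x)) ?_
    simpa using integrableOn_rpow_mul_exp_neg_mul_rpow (s := 1) (p := 1) (by norm_num) one_pos hb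
  · rw [integral_comp_abs (f := fun x => x * Real.exp (-b * x))]
    have h := Real.integral_rpow_mul_exp_neg_mul_Ioi (a := 2) (r := b) two_pos hb
    norm_num at h
    simp only [neg_mul]
    rw [h]
    field_simp

theorem t2_ft (x : ℝ) : ∫ ξ : ℝ, ec (ξ * x) * ((Real.exp (-(2 * Real.pi) * |ξ|) : ℝ) : ℂ)
    = ((1 / Real.pi * (1 + x ^ 2)⁻¹ : ℝ) : ℂ) := by
  have hπ := Real.pi_pos
  set a : ℂ := 2 * Real.pi * (1 + x * Complex.I) with ha
  set b : ℂ := 2 * Real.pi * (-1 + x * Complex.I) with hb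
  have ha0 : 0 < a.re := by simp [ha, hπ]
  have hb0 : b.re < 0 := by simp [hb, hπ]
  have e1 : EqOn (fun ξ : ℝ => Complex.exp (a * ξ))
      (fun ξ : ℝ => ec (ξ * x) * ((Real.exp (-(2 * Real.pi) * |ξ|) : ℝ) : ℂ)) (Iic 0) := by
    intro ξ hξ
    simp only
    rw [LT.ec_eq, abs_of_nonpos hξ, Complex.ofReal_exp, ← Complex.exp_add, ha]
    congr 1
    push_cast
    ring
  have e2 : EqOn (fun ξ : ℝ => Complex.exp (b * ξ))
      (fun ξ : ℝ => ec (ξ * x) * ((Real.exp (-(2 * Real.pi) * |ξ|) : ℝ) : ℂ)) (Ioi 0) := by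
    intro ξ hξ
    simp only
    rw [LT.ec_eq, abs_of_pos hξ, Complex.ofReal_exp, ← Complex.exp_add, hb]
    congr 1
    push_cast
    ring
  rw [← intervalIntegral.integral_Iic_add_Ioi (b := 0)
    ((integrableOn_exp_mul_complex_Iic ha0 0).congr_fun e1 measurableSet_Iic)
    ((integrableOn_exp_mul_complex_Ioi hb0 0).congr_fun e2 measurableSet_Ioi),
    ← setIntegral_congr_fun measurableSet_Iic e1, ← setIntegral_congr_fun measurableSet_Ioi e2,
    integral_exp_mul_complex_Iic ha0, integral_exp_mul_complex_Ioi hb0]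
  have h1 : a ≠ 0 := fun h => by simp [h] at ha0
  have h2 : b ≠ 0 := fun h => by simp [h] at hb0
  have h3 : (Real.pi : ℂ) ≠ 0 := by exact_mod_cast hπ.ne'
  have h4 : (1 + (x : ℂ) ^ 2) ≠ 0 := by exact_mod_cast (by positivity : (1 + x ^ 2 : ℝ) ≠ 0)
  push_cast
  simp only [mul_zero, Complex.exp_zero]
  field_simp
  rw [ha, hb]
  linear_combination (-4 * (Real.pi : ℂ) ^ 2 * (x : ℂ) ^ 2) * Complex.I_sq

/-- The Benjamin-Ono soliton. -/
theorem exists_soliton : ∃ u : L2, ‖u‖ = 1 ∧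
    (∀ᵐ x, ‖fn u x‖ ^ 2 = 2 / Real.pi * ((1 + x ^ 2)⁻¹) ^ 2) ∧
    kin u = ENNReal.ofReal (1 / 2) := by
  have hπ := Real.pi_pos
  set g : ℝ → ℂ := fun ξ => ((√(2 * Real.pi) : ℝ) : ℂ) *
    ((Real.exp (-(2 * Real.pi) * |ξ|) : ℝ) : ℂ) with hg
  have hsq : ∀ ξ, ‖g ξ‖ ^ 2 = 2 * Real.pi * Real.exp (-(4 * Real.pi) * |ξ|) := by
    intro ξ
    rw [hg, norm_mul, mul_pow, Complex.norm_real, Complex.norm_real, Real.norm_eq_abs,
      Real.norm_eq_abs, sq_abs, sq_abs, Real.sq_sqrt (by positivity), ← Real.exp_nat_mul]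
    congr 2
    push_cast
    ring
  have h1 : Integrable g := ((t2_exp (by positivity)).1.ofReal).const_mul _
  have h2 : MemLp g 2 volume := by
    rw [memLp_two_iff_integrable_sq_norm h1.1]
    simp_rw [hsq]
    exact (t2_exp (by positivity)).1.const_mul _
  obtain ⟨u, hu, hx⟩ := ft_inv_ae h1 h2
  have hf : ∀ᵐ ξ, fn (ft u) ξ = g ξ := by rw [hu]; exact h2.coeFn_toLp
  refine ⟨u, ?_, ?_, ?_⟩
  · have h3 := (fn_sq (ft u)).2
    rw [integral_congr_ae (g := fun ξ => 2 * Real.pi * Real.exp (-(4 * Real.pi) * |ξ|))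
      (hf.mono fun ξ h => by simp only [h, hsq]), integral_const_mul,
      (t2_exp (by positivity)).2, ft, Lp.norm_fourier_eq] at h3
    have h4 : ‖u‖ ^ 2 = 1 := by rw [← h3]; field_simp; norm_num
    exact (pow_eq_one_iff_of_nonneg (norm_nonneg _) two_ne_zero).1 h4
  · filter_upwards [hx] with x h
    have h3 : ∫ ξ, ec (ξ * x) * g ξ = ((√(2 * Real.pi) : ℝ) : ℂ) *
        ∫ ξ : ℝ, ec (ξ * x) * ((Real.exp (-(2 * Real.pi) * |ξ|) : ℝ) : ℂ) := by
      rw [← integral_const_mul]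
      exact integral_congr_ae (Filter.Eventually.of_forall fun ξ => by simp only [hg]; ring)
    rw [h, h3, t2_ft, norm_mul, mul_pow, Complex.norm_real, Complex.norm_real, Real.norm_eq_abs,
      Real.norm_eq_abs, sq_abs, sq_abs, Real.sq_sqrt (by positivity)]
    field_simp
  · have h3 := t2_mom (b := 4 * Real.pi) (by positivity)
    have h4 : kin u = ∫⁻ ξ, ENNReal.ofReal
        ((2 * Real.pi) ^ 2 * (|ξ| * Real.exp (-(4 * Real.pi) * |ξ|))) := by
      refine lintegral_congr_ae (hf.mono fun ξ h => ?_)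
      simp only
      rw [h, ← s2_ofReal _ (by positivity), hsq]
      congr 1
      ring
    rw [h4, ← ofReal_integral_eq_lintegral_ofReal (h3.1.const_mul _)
      (Filter.Eventually.of_forall fun ξ => by positivity), integral_const_mul, h3.2]
    congr 1
    field_simp
    norm_num

end Pool.Agent.P.MP_9f4f5e_mp.LT1
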