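import Pool.Agent.P.MP_9f4f5e_mp.LT1.T2

set_option linter.unusedSectionVars false

open MeasureTheory Matrix Filter Topology
open scoped ENNReal ComplexOrder ComplexConjugate FourierTransform
open Pool.Agent.P.MP_9f4f5e_mp.LT (tp dg qf ec fej)

noncomputable section

namespace Pool.Agent.P.MP_9f4f5e_mp.LT1

theorem t3_int (n : ℕ) : Integrable fun x : ℝ => ((1 + x ^ 2)⁻¹) ^ (n + 1) := by
  refine integrable_inv_one_add_sq.mono' (by fun_prop) (Eventually.of_forall fun x => ?_)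
  have h0 : 0 ≤ (1 + x ^ 2)⁻¹ := by positivity
  have h1 : (1 + x ^ 2)⁻¹ ≤ 1 := inv_le_one_of_one_le₀ (by nlinarith [sq_nonneg x])
  rw [Real.norm_of_nonneg (by positivity), pow_succ]
  exact mul_le_of_le_one_left h0 (pow_le_one₀ h0 h1)

theorem t3_lim (n : ℕ) {l : Filter ℝ} (hl : Tendsto (fun x : ℝ => |x|) l atTop) :
    Tendsto (fun x : ℝ => x * ((1 + x ^ 2)⁻¹) ^ (n + 1)) l (𝓝 0) := by
  refine squeeze_zero_norm' ?_ (tendsto_inv_atTop_zero.comp hl)
  filter_upwards [hl.eventually_gt_atTop 0] with x hx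
  have h0 : 0 ≤ (1 + x ^ 2)⁻¹ := by positivity
  have h1 : (1 + x ^ 2)⁻¹ ≤ 1 := inv_le_one_of_one_le₀ (by nlinarith [sq_nonneg x])
  have h2 : ((1 + x ^ 2)⁻¹) ^ (n + 1) ≤ (1 + x ^ 2)⁻¹ := by
    rw [pow_succ]
    exact mul_le_of_le_one_left h0 (pow_le_one₀ h0 h1)
  rw [norm_mul, Real.norm_eq_abs, Real.norm_of_nonneg (by positivity)]
  refine (mul_le_mul_of_nonneg_left h2 hx.le).trans ?_
  simp only [Function.comp]
  rw [← div_eq_mul_inv, div_le_iff₀ (by positivity), ← sq_abs x]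
  field_simp
  nlinarith

theorem t3_rec (n : ℕ) : (2 * (n + 1) : ℝ) * ∫ x : ℝ, ((1 + x ^ 2)⁻¹) ^ (n + 2)
    = (2 * n + 1) * ∫ x : ℝ, ((1 + x ^ 2)⁻¹) ^ (n + 1) := by
  have h := integral_of_hasDerivAt_of_tendsto
    (f := fun x : ℝ => x * ((1 + x ^ 2)⁻¹) ^ (n + 1))
    (f' := fun x : ℝ => (2 * (n + 1) : ℝ) * ((1 + x ^ 2)⁻¹) ^ (n + 2)
      - (2 * n + 1) * ((1 + x ^ 2)⁻¹) ^ (n + 1)) (fun x => ?_)
    (((t3_int (n + 1)).const_mul _).sub ((t3_int n).const_mul _))
    (t3_lim n tendsto_abs_atBot_atTop) (t3_lim n tendsto_abs_atTop_atTop)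
  · rw [integral_sub ((t3_int (n + 1)).const_mul _) ((t3_int n).const_mul _), integral_const_mul,
      integral_const_mul] at h
    linarith
  · have h0 : (1 + x ^ 2) ≠ 0 := by positivity
    have h1 : HasDerivAt (fun x : ℝ => 1 + x ^ 2) (2 * x) x := by
      simpa using (hasDerivAt_pow 2 x).const_add 1
    refine ((hasDerivAt_id x).mul ((h1.inv h0).pow (n + 1))).congr_deriv ?_
    simp only [id, Pi.pow_apply, Pi.inv_apply, Nat.add_sub_cancel, pow_succ]
    push_cast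
    field_simp
    ring

theorem int_two : Integrable (fun x : ℝ => ((1 + x ^ 2)⁻¹) ^ 2) ∧
    ∫ x : ℝ, ((1 + x ^ 2)⁻¹) ^ 2 = Real.pi / 2 := by
  refine ⟨t3_int 1, ?_⟩
  have h := t3_rec 0
  simp only [zero_add, pow_one, integral_univ_inv_one_add_sq, Nat.cast_zero] at h
  linarith

theorem int_three : Integrable (fun x : ℝ => ((1 + x ^ 2)⁻¹) ^ 3) ∧
    ∫ x : ℝ, ((1 + x ^ 2)⁻¹) ^ 3 = 3 * Real.pi / 8 := by
  refine ⟨t3_int 2, ?_⟩
  have h := t3_rec 1
  rw [int_two.2] at h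
  norm_num at h ⊢
  linarith

theorem t3_trial {γ C l : ℝ} (hγ : 0 < γ) (hl : 2 / 3 ≤ l) (H : LiebThirring γ C) :
    ENNReal.ofReal ((3 * l / 4 - 1 / 2) ^ γ)
      ≤ ENNReal.ofReal C * ∫⁻ x : ℝ, ENNReal.ofReal ((l * (1 + x ^ 2)⁻¹) ^ (γ + 1)) := by
  obtain ⟨u, h1, h2, h3⟩ := exists_soliton
  have hπ := Real.pi_pos
  have h4 := H 1 (fun _ => u) ⟨fun _ => h1, fun i j hij => (hij (Subsingleton.elim i j)).elim⟩
    (fun x => l * (1 + x ^ 2)⁻¹) (by fun_prop)
  have h5 : pot (fun x => l * (1 + x ^ 2)⁻¹) u = ENNReal.ofReal (3 * l / 4) := by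
    have h6 : pot (fun x => l * (1 + x ^ 2)⁻¹) u
        = ∫⁻ x : ℝ, ENNReal.ofReal (l * (2 / Real.pi) * ((1 + x ^ 2)⁻¹) ^ 3) := by
      refine lintegral_congr_ae (h2.mono fun x h => ?_)
      simp only
      rw [← s2_ofReal _ (by positivity), h]
      congr 1
      ring
    rw [h6, ← ofReal_integral_eq_lintegral_ofReal (int_three.1.const_mul _)
      (Eventually.of_forall fun x => by positivity), integral_const_mul, int_three.2]
    congr 1
    field_simp
    ring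
  rw [Fin.sum_univ_one, h5, h3, ← ENNReal.ofReal_sub _ (by norm_num),
    ENNReal.ofReal_rpow_of_nonneg (by linarith) hγ.le] at h4
  refine h4.trans_eq ?_
  congr 1
  exact lintegral_congr fun x => ENNReal.ofReal_rpow_of_nonneg (by positivity) (by linarith)

theorem not_lt_one : ¬ LiebThirring 1 (1 / (Real.pi * (1 + 1))) := by
  intro H
  have hπ := Real.pi_pos
  have h := t3_trial (l := 3 / 2) one_pos (by norm_num) H
  have h1 : ∀ x : ℝ, (3 / 2 * (1 + x ^ 2)⁻¹) ^ ((1 : ℝ) + 1) = 9 / 4 * ((1 + x ^ 2)⁻¹) ^ 2 := by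
    intro x
    rw [one_add_one_eq_two, Real.rpow_two]
    ring
  simp only [h1] at h
  rw [← ofReal_integral_eq_lintegral_ofReal (int_two.1.const_mul _)
    (Eventually.of_forall fun x => by positivity), integral_const_mul, int_two.2,
    ← ENNReal.ofReal_mul (by positivity), ENNReal.ofReal_le_ofReal_iff (by positivity),
    Real.rpow_one] at h
  have h2 : 1 / (Real.pi * (1 + 1)) * (9 / 4 * (Real.pi / 2)) = 9 / 16 := by
    field_simp
    norm_num
  rw [h2] at h
  norm_num at h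

theorem not_lt_mid {γ : ℝ} (h1 : 1 < γ) (h2 : γ < 2) :
    ¬ LiebThirring γ (1 / (Real.pi * (γ + 1))) := by
  intro H
  have hπ := Real.pi_pos
  have h := t3_trial (l := 2) (by linarith) (by norm_num) H
  set θ := 2 - γ with hθ
  have hθ0 : 0 < θ := by linarith
  have hθ1 : θ < 1 := by linarith
  set c : ℝ := 2 ^ θ * 3 ^ (1 - θ) with hc
  have hc0 : 0 < c := by positivity
  have hc1 : c < γ + 1 := by
    have h3 := strictConvexOn_exp.2 (Set.mem_univ (Real.log 2)) (Set.mem_univ (Real.log 3))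
      (Real.log_lt_log two_pos (by norm_num)).ne hθ0 (sub_pos.2 hθ1) (by ring)
    rw [smul_eq_mul, smul_eq_mul, smul_eq_mul, smul_eq_mul, Real.exp_log two_pos,
      Real.exp_log three_pos, Real.exp_add, mul_comm θ, mul_comm (1 - θ),
      ← Real.rpow_def_of_pos two_pos, ← Real.rpow_def_of_pos three_pos] at h3
    linarith
  have h3 : ∀ x : ℝ, (2 * (1 + x ^ 2)⁻¹) ^ (γ + 1) ≤
      c * (2 * θ) * ((1 + x ^ 2)⁻¹) ^ 2 + c * (8 / 3 * (1 - θ)) * ((1 + x ^ 2)⁻¹) ^ 3 := by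
    intro x
    set v : ℝ := 2 * (1 + x ^ 2)⁻¹ with hv
    have hv0 : 0 < v := by positivity
    have h4 := Real.geom_mean_le_arith_mean2_weighted hθ0.le (sub_pos.2 hθ1).le
      (show 0 ≤ v ^ 2 / 2 by positivity) (show 0 ≤ v ^ 3 / 3 by positivity) (by ring)
    have h5 : v ^ (γ + 1) = c * ((v ^ 2 / 2) ^ θ * (v ^ 3 / 3) ^ (1 - θ)) := by
      rw [Real.div_rpow (by positivity) (by norm_num), Real.div_rpow (by positivity) (by norm_num),
        ← Real.rpow_natCast v 2, ← Real.rpow_natCast v 3, ← Real.rpow_mul hv0.le,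
        ← Real.rpow_mul hv0.le, hc]
      field_simp
      rw [← Real.rpow_add hv0]
      congr 1
      push_cast
      linarith
    rw [h5]
    refine (mul_le_mul_of_nonneg_left h4 hc0.le).trans_eq ?_
    rw [hv]
    ring
  have hi : Integrable fun x : ℝ =>
      c * (2 * θ) * ((1 + x ^ 2)⁻¹) ^ 2 + c * (8 / 3 * (1 - θ)) * ((1 + x ^ 2)⁻¹) ^ 3 :=
    (int_two.1.const_mul _).add (int_three.1.const_mul _)
  have h4 := h.trans (mul_le_mul_right
    (lintegral_mono fun x => ENNReal.ofReal_le_ofReal (h3 x)) _)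
  have hs : 0 < 1 - θ := sub_pos.2 hθ1
  rw [← ofReal_integral_eq_lintegral_ofReal hi (Eventually.of_forall fun x => by positivity),
    integral_add (int_two.1.const_mul _) (int_three.1.const_mul _), integral_const_mul,
    integral_const_mul, int_two.2, int_three.2, ← ENNReal.ofReal_mul (by positivity),
    ENNReal.ofReal_le_ofReal_iff (by positivity)] at h4
  have h5 : 1 / (Real.pi * (γ + 1)) *
      (c * (2 * θ) * (Real.pi / 2) + c * (8 / 3 * (1 - θ)) * (3 * Real.pi / 8)) = c / (γ + 1) := by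
    field_simp
    ring
  rw [h5, le_div_iff₀ (by linarith)] at h4
  norm_num at h4
  linarith

end Pool.Agent.P.MP_9f4f5e_mp.LT1
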