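import Pool.Agent.P.MP_9f4f5e_mp.LT1.S11

set_option linter.unusedSectionVars false

open MeasureTheory Matrix
open scoped ENNReal ComplexOrder ComplexConjugate FourierTransform
open Pool.Agent.P.MP_9f4f5e_mp.LT (tp dg qf ec fej)

noncomputable section

namespace Pool.Agent.P.MP_9f4f5e_mp.LT1

theorem al_one {γ : ℝ} (hγ : 0 < γ) (E : ℝ≥0∞) :
    ∫⁻ s in Set.Ioi (0 : ℝ), (E - ENNReal.ofReal s) ^ γ
      = ENNReal.ofReal (1 / (γ + 1)) * E ^ (γ + 1) := by
  have han : 0 < γ + 1 := by linarith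
  by_cases hE : E = ∞
  · subst hE
    rw [ENNReal.top_rpow_of_pos han, ENNReal.mul_top (by simpa using han),
      setLIntegral_congr_fun measurableSet_Ioi (g := fun _ => ∞)]
    · simp
    · intro s _
      simp only
      rw [ENNReal.top_sub ENNReal.ofReal_ne_top, ENNReal.top_rpow_of_pos hγ]
  obtain ⟨x, hx0, rfl⟩ : ∃ x : ℝ, 0 ≤ x ∧ E = ENNReal.ofReal x :=
    ⟨E.toReal, ENNReal.toReal_nonneg, (ENNReal.ofReal_toReal hE).symm⟩
  have h1 : ∫⁻ s in Set.Ioi (0 : ℝ), (ENNReal.ofReal x - ENNReal.ofReal s) ^ γ =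
      ∫⁻ s in Set.Ioc (0 : ℝ) x, ENNReal.ofReal ((x - s) ^ γ) := by
    rw [← lintegral_indicator measurableSet_Ioi, ← lintegral_indicator measurableSet_Ioc]
    congr 1
    funext s
    by_cases hs : 0 < s
    · rw [Set.indicator_of_mem (show s ∈ Set.Ioi (0 : ℝ) from hs)]
      by_cases hsx : s ≤ x
      · rw [Set.indicator_of_mem (show s ∈ Set.Ioc (0 : ℝ) x from ⟨hs, hsx⟩),
          ← ENNReal.ofReal_sub _ hs.le, ENNReal.ofReal_rpow_of_nonneg (by linarith) hγ.le]
      · rw [Set.indicator_of_notMem (fun h => hsx h.2),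
          tsub_eq_zero_of_le (ENNReal.ofReal_le_ofReal (not_le.1 hsx).le),
          ENNReal.zero_rpow_of_pos hγ]
    · rw [Set.indicator_of_notMem (show s ∉ Set.Ioi (0 : ℝ) from hs),
        Set.indicator_of_notMem (fun h => hs h.1)]
  have h2 : IntegrableOn (fun s : ℝ => (x - s) ^ γ) (Set.Ioc 0 x) :=
    (((continuous_const.sub continuous_id).rpow_const fun _ => Or.inr hγ.le).intervalIntegrable
      0 x).1
  have h3 : 0 ≤ᵐ[volume.restrict (Set.Ioc (0 : ℝ) x)] fun s : ℝ => (x - s) ^ γ :=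
    (ae_restrict_iff' measurableSet_Ioc).2 (Filter.Eventually.of_forall fun s hs =>
      Real.rpow_nonneg (sub_nonneg.2 hs.2) _)
  rw [h1, ← ofReal_integral_eq_lintegral_ofReal h2 h3, ← intervalIntegral.integral_of_le hx0,
    intervalIntegral.integral_comp_sub_left (fun s : ℝ => s ^ γ) x, sub_self, sub_zero,
    integral_rpow (Or.inl (by linarith)), Real.zero_rpow han.ne', sub_zero,
    ENNReal.ofReal_rpow_of_nonneg hx0 han.le, ← ENNReal.ofReal_mul (by positivity)]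
  congr 1
  ring

theorem lt_succ {γ : ℝ} (hγ : 0 < γ) (H : LiebThirring γ (1 / (Real.pi * (γ + 1)))) :
    LiebThirring (γ + 1) (1 / (Real.pi * (γ + 1 + 1))) := by
  intro N u hu V hV
  have hπ := Real.pi_pos
  have hL : ENNReal.ofReal (1 / (γ + 1)) * ∑ k, (pot V (u k) - kin (u k)) ^ (γ + 1) =
      ∫⁻ s in Set.Ioi (0 : ℝ), ∑ k, ((pot V (u k) - kin (u k)) - ENNReal.ofReal s) ^ γ := by
    rw [Finset.mul_sum, lintegral_finsetSum]
    · exact Finset.sum_congr rfl fun k _ => (al_one hγ _).symm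
    · intro k _
      exact (measurable_const.sub measurable_id.ennreal_ofReal).pow_const γ
  have hm : Measurable fun p : ℝ × ℝ => (ENNReal.ofReal (V p.2) - ENNReal.ofReal p.1) ^ (γ + 1) :=
    ((hV.comp measurable_snd).ennreal_ofReal.sub measurable_fst.ennreal_ofReal).pow_const _
  have hR : ENNReal.ofReal (1 / (γ + 1 + 1)) * ∫⁻ x, ENNReal.ofReal (V x) ^ (γ + 1 + 1) =
      ∫⁻ s in Set.Ioi (0 : ℝ), ∫⁻ x, (ENNReal.ofReal (V x) - ENNReal.ofReal s) ^ (γ + 1) := by
    rw [← lintegral_const_mul _ (hV.ennreal_ofReal.pow_const (γ + 1 + 1)),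
      lintegral_lintegral_swap (μ := volume.restrict (Set.Ioi (0 : ℝ))) (ν := volume)
      (f := fun s x => (ENNReal.ofReal (V x) - ENNReal.ofReal s) ^ (γ + 1)) hm.aemeasurable]
    exact lintegral_congr fun x => (al_one (by linarith) _).symm
  have h1 : ENNReal.ofReal (1 / (γ + 1)) * ∑ k, (pot V (u k) - kin (u k)) ^ (γ + 1) ≤
      ENNReal.ofReal (1 / (Real.pi * (γ + 1))) *
        (ENNReal.ofReal (1 / (γ + 1 + 1)) * ∫⁻ x, ENNReal.ofReal (V x) ^ (γ + 1 + 1)) := by
    rw [hL, hR, ← lintegral_const_mul' _ _ ENNReal.ofReal_ne_top]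
    refine setLIntegral_mono' measurableSet_Ioi fun s hs => ?_
    have h2 := H N u hu (fun x => V x - s) (hV.sub_const s)
    simp only [ENNReal.ofReal_sub _ (le_of_lt hs)] at h2
    refine le_trans (Finset.sum_le_sum fun k _ => ?_) h2
    exact ENNReal.rpow_le_rpow (s11_shift (hu.1 k) (le_of_lt hs)) hγ.le
  have e3 : ENNReal.ofReal (1 / (Real.pi * (γ + 1))) * ENNReal.ofReal (1 / (γ + 1 + 1)) =
      ENNReal.ofReal (1 / (γ + 1)) * ENNReal.ofReal (1 / (Real.pi * (γ + 1 + 1))) := by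
    rw [← ENNReal.ofReal_mul (by positivity), ← ENNReal.ofReal_mul (by positivity)]
    congr 1
    field_simp
  rw [← mul_assoc, e3, mul_assoc] at h1
  exact (ENNReal.mul_le_mul_iff_right (ENNReal.ofReal_pos.2 (by positivity)).ne'
    ENNReal.ofReal_ne_top).1 h1

end Pool.Agent.P.MP_9f4f5e_mp.LT1
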